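import Pool.Agent.W2helper64.GB.Fin

set_option autoImplicit false
set_option linter.unusedSectionVars false

/-!
Goldbach partitions in the random sieve: the size of the main term.
-/

namespace Pool.Agent.W2helper64.GB

open Finset Filter Topology Polynomial MeasureTheory Pool.Agent.W2helper64.RS Pool.Agent.W2helper64.RK
open Pool.Agent.W2helper64.BH

theorem mem_rng {n r : ℕ} (hn : 100 ≤ n) (hr : r ∈ (Icc 1 n).filter fun r => 2 * n < r ^ 2) : 8 ≤ r ∧ r ≤ n := by
  rw [Finset.mem_filter, mem_Icc] at hr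
  refine ⟨?_, hr.1.2⟩
  by_contra hcon
  have : r ^ 2 ≤ 8 ^ 2 := Nat.pow_le_pow_left (by omega) 2
  omega

theorem Mc_ge {n : ℕ} (hn : 100 ≤ n) : ((n : ℝ) - 2 * √(n : ℝ)) * (1 / (Real.log n + 1)) ^ 2 ≤ Mc n := by
  have hn1 : (100 : ℝ) ≤ n := by exact_mod_cast hn
  have hlog2 : Real.log 2 ≤ 1 := by
    have := Real.log_two_lt_d9
    linarith
  have h1 : ∀ r ∈ (Icc 1 n).filter (fun r => 2 * n < r ^ 2), (1 / (Real.log n + 1)) ^ 2 ≤
      1 / (Real.log r * Real.log (2 * n - r)) := by
    intro r hr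
    obtain ⟨h8, h2⟩ := mem_rng hn hr
    have h8r : (8 : ℝ) ≤ r := by exact_mod_cast h8
    have h2r : (r : ℝ) ≤ n := by exact_mod_cast h2
    have e1 : Real.log (2 * n) ≤ Real.log n + 1 := by
      rw [Real.log_mul (by norm_num) (by linarith)]
      linarith
    have e2 : Real.log r ≤ Real.log n + 1 := (Real.log_le_log (by linarith) (by linarith)).trans e1
    have e3 : Real.log (2 * n - r) ≤ Real.log n + 1 := (Real.log_le_log (by linarith) (by linarith)).trans e1
    have e4 : 2 ≤ Real.log r := log8.trans (Real.log_le_log (by norm_num) h8r)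
    have e5 : 2 ≤ Real.log (2 * n - r : ℝ) := log8.trans (Real.log_le_log (by norm_num) (by linarith))
    rw [div_pow, one_pow]
    apply one_div_le_one_div_of_le (by positivity)
    rw [sq]
    exact mul_le_mul e2 e3 (by linarith) (by linarith)
  have h2 : ((n : ℝ) - 2 * √(n : ℝ)) ≤ (((Icc 1 n).filter (fun r => 2 * n < r ^ 2)).card : ℝ) := by
    have h3 : (Icc 1 n) ⊆ (Icc 1 n).filter (fun r => 2 * n < r ^ 2) ∪ Icc 1 (Nat.sqrt (2 * n)) := by
      intro r hr
      rw [mem_Icc] at hr
      rw [Finset.mem_union, Finset.mem_filter, mem_Icc, mem_Icc]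
      by_cases h : 2 * n < r ^ 2
      · exact Or.inl ⟨hr, h⟩
      · exact Or.inr ⟨hr.1, Nat.le_sqrt'.mpr (by omega)⟩
    have h4 := (card_le_card h3).trans (card_union_le _ _)
    rw [Nat.card_Icc, Nat.card_Icc, Nat.add_sub_cancel, Nat.add_sub_cancel] at h4
    have h5 : (n : ℝ) ≤ (((Icc 1 n).filter (fun r => 2 * n < r ^ 2)).card : ℝ) + (Nat.sqrt (2 * n) : ℝ) := by
      exact_mod_cast h4
    have h6 : ((Nat.sqrt (2 * n) : ℕ) : ℝ) ≤ 2 * √(n : ℝ) := by
      have h7 : ((Nat.sqrt (2 * n) : ℕ) : ℝ) ≤ √(((2 * n : ℕ)) : ℝ) := by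
        apply Real.le_sqrt_of_sq_le
        exact_mod_cast Nat.sqrt_le' _
      have h8 : √(((2 * n : ℕ)) : ℝ) ≤ √(4 * n : ℝ) := by
        apply Real.sqrt_le_sqrt
        push_cast
        linarith
      have h9 : √(4 * n : ℝ) = 2 * √(n : ℝ) := by
        rw [Real.sqrt_mul (by norm_num), show (4 : ℝ) = 2 ^ 2 by norm_num, Real.sqrt_sq (by norm_num)]
      linarith
    linarith
  have h3 := sum_le_sum h1
  rw [sum_const, nsmul_eq_mul] at h3
  unfold Mc
  exact (mul_le_mul_of_nonneg_right h2 (by positivity)).trans h3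

theorem Mc_le {n : ℕ} (hn : 100 ≤ n) {y : ℝ} (hy : 1 < y) :
    Mc n ≤ y + n * (1 / (Real.log y * Real.log n)) := by
  classical
  have hn1 : (100 : ℝ) ≤ n := by exact_mod_cast hn
  have hlogy : 0 < Real.log y := Real.log_pos hy
  have hlogn : 0 < Real.log n := Real.log_pos (by linarith)
  unfold Mc
  set A := (Icc 1 n).filter (fun r => 2 * n < r ^ 2) with hA
  rw [← sum_filter_add_sum_filter_not A fun r : ℕ => (r : ℝ) < y]
  refine add_le_add ?_ ?_
  · have h1 : ∑ r ∈ A.filter (fun r : ℕ => (r : ℝ) < y), 1 / (Real.log r * Real.log (2 * n - r)) ≤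
        ∑ r ∈ A.filter (fun r : ℕ => (r : ℝ) < y), (1 : ℝ) := by
      refine sum_le_sum fun r hr => ?_
      rw [Finset.mem_filter] at hr
      obtain ⟨h8, h2⟩ := mem_rng hn hr.1
      have h8r : (8 : ℝ) ≤ r := by exact_mod_cast h8
      have h2r : (r : ℝ) ≤ n := by exact_mod_cast h2
      have e4 : 2 ≤ Real.log r := log8.trans (Real.log_le_log (by norm_num) h8r)
      have e5 : 2 ≤ Real.log (2 * n - r : ℝ) := log8.trans (Real.log_le_log (by norm_num) (by linarith))
      rw [div_le_one (by positivity)]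
      nlinarith
    refine h1.trans ?_
    rw [sum_const, nsmul_eq_mul, mul_one]
    have h2 : A.filter (fun r : ℕ => (r : ℝ) < y) ⊆ Icc 1 ⌊y⌋₊ := by
      intro r hr
      rw [Finset.mem_filter] at hr
      obtain ⟨h8, h2⟩ := mem_rng hn hr.1
      rw [mem_Icc]
      exact ⟨by omega, Nat.le_floor hr.2.le⟩
    have h3 := card_le_card h2
    rw [Nat.card_Icc, Nat.add_sub_cancel] at h3
    exact le_trans (by exact_mod_cast h3) (Nat.floor_le (by linarith))
  · have h1 : ∑ r ∈ A.filter (fun r : ℕ => ¬ (r : ℝ) < y), 1 / (Real.log r * Real.log (2 * n - r)) ≤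
        ∑ r ∈ A.filter (fun r : ℕ => ¬ (r : ℝ) < y), 1 / (Real.log y * Real.log n) := by
      refine sum_le_sum fun r hr => ?_
      rw [Finset.mem_filter, not_lt] at hr
      obtain ⟨h8, h2⟩ := mem_rng hn hr.1
      have h2r : (r : ℝ) ≤ n := by exact_mod_cast h2
      apply one_div_le_one_div_of_le (by positivity)
      apply mul_le_mul (Real.log_le_log (by linarith) hr.2) (Real.log_le_log (by linarith) (by linarith)) hlogn.le
      exact hlogy.le.trans (Real.log_le_log (by linarith) hr.2)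
    refine h1.trans ?_
    rw [sum_const, nsmul_eq_mul]
    refine mul_le_mul_of_nonneg_right ?_ (by positivity)
    have h2 : (A.filter (fun r : ℕ => ¬ (r : ℝ) < y)).card ≤ (Icc 1 n).card :=
      card_le_card ((filter_subset _ _).trans (filter_subset _ _))
    rw [Nat.card_Icc, Nat.add_sub_cancel] at h2
    exact_mod_cast h2

theorem Mc_asymp : Tendsto (fun n : ℕ => Mc n * Real.log n ^ 2 / n) atTop (𝓝 1) := by
  have hlog : Tendsto (fun x : ℕ => Real.log (x : ℝ)) atTop atTop :=
    Real.tendsto_log_atTop.comp tendsto_natCast_atTop_atTop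
  have h0 : Tendsto (fun u : ℝ => Real.log u / u) atTop (𝓝 0) := Real.isLittleO_log_id_atTop.tendsto_div_nhds_zero
  have hsqrt : Tendsto (fun n : ℕ => √(n : ℝ)) atTop atTop :=
    Real.tendsto_sqrt_atTop.comp tendsto_natCast_atTop_atTop
  have lo : Tendsto (fun n : ℕ => (1 - 2 / √(n : ℝ)) * (1 / (1 + 1 / Real.log n)) ^ 2) atTop (𝓝 1) := by
    have h3 : Tendsto (fun n : ℕ => (1 - 2 / √(n : ℝ)) * (1 / (1 + 1 / Real.log n)) ^ 2) atTop
        (𝓝 ((1 - 0) * (1 / (1 + 0)) ^ 2)) := by
      refine (tendsto_const_nhds.sub (hsqrt.const_div_atTop _)).mul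
        ((Tendsto.div tendsto_const_nhds (tendsto_const_nhds.add (hlog.const_div_atTop _)) ?_).pow 2)
      norm_num
    simpa using h3
  have up : Tendsto (fun n : ℕ => 1 / Real.log n + 1 / (1 - 3 * (Real.log (Real.log n) / Real.log n))) atTop (𝓝 1) := by
    have h3 : Tendsto (fun n : ℕ => 1 / Real.log n + 1 / (1 - 3 * (Real.log (Real.log n) / Real.log n))) atTop
        (𝓝 (0 + 1 / (1 - 3 * 0))) := by
      refine (hlog.const_div_atTop _).add (Tendsto.div tendsto_const_nhds
        (tendsto_const_nhds.sub (tendsto_const_nhds.mul (h0.comp hlog))) ?_)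
      norm_num
    simpa using h3
  have h1 : Tendsto (fun n : ℕ => 3 * (Real.log (Real.log n) / Real.log n)) atTop (𝓝 (3 * 0)) :=
    tendsto_const_nhds.mul (h0.comp hlog)
  rw [mul_zero] at h1
  refine tendsto_of_tendsto_of_tendsto_of_le_of_le' lo up ?_ ?_
  · filter_upwards [eventually_ge_atTop 100] with n hn
    have hn1 : (100 : ℝ) ≤ n := by exact_mod_cast hn
    have hn0 : (0 : ℝ) < n := by linarith
    have hl0 : 0 < Real.log (n : ℝ) := Real.log_pos (by linarith)
    have h2 := Mc_ge hn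
    have hs0 : 0 < √(n : ℝ) := Real.sqrt_pos.mpr hn0
    have hsq : √(n : ℝ) * √(n : ℝ) = n := Real.mul_self_sqrt hn0.le
    have e1 : (1 - 2 / √(n : ℝ)) * (1 / (1 + 1 / Real.log n)) ^ 2 =
        ((n : ℝ) - 2 * √(n : ℝ)) * (1 / (Real.log n + 1)) ^ 2 * Real.log n ^ 2 / n := by
      have e2 : 1 / (1 + 1 / Real.log (n : ℝ)) = 1 / (Real.log n + 1) * Real.log n := by
        have : Real.log (n : ℝ) + 1 ≠ 0 := by positivity
        field_simp
      have e3 : 1 - 2 / √(n : ℝ) = ((n : ℝ) - 2 * √(n : ℝ)) / n := by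
        rw [eq_div_iff hn0.ne', sub_mul, one_mul]
        congr 1
        rw [div_mul_eq_mul_div, div_eq_iff hs0.ne']
        rw [mul_assoc, hsq]
      rw [e2, e3, mul_pow]
      ring
    rw [e1]
    apply div_le_div_of_nonneg_right _ hn0.le
    exact mul_le_mul_of_nonneg_right h2 (by positivity)
  · filter_upwards [eventually_ge_atTop 100, hlog.eventually_ge_atTop 1,
      h1.eventually (gt_mem_nhds (show (0 : ℝ) < 1 by norm_num))] with n hn hl hs
    have hn1 : (100 : ℝ) ≤ n := by exact_mod_cast hn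
    have hn0 : (0 : ℝ) < n := by linarith
    set u := Real.log (n : ℝ) with hu
    have hl0 : 0 < u := by linarith
    set y : ℝ := n / u ^ 3 with hy
    have hupos : 0 < u ^ 3 := by positivity
    have hlogy : Real.log y = u - 3 * Real.log u := by
      rw [hy, Real.log_div hn0.ne' hupos.ne', Real.log_pow]
      push_cast
      ring
    have hlogy0 : 0 < Real.log y := by
      rw [hlogy]
      have e1 : 3 * (Real.log u / u) * u < 1 * u := mul_lt_mul_of_pos_right hs hl0
      have e2 : 3 * (Real.log u / u) * u = 3 * Real.log u := by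
        field_simp
      linarith
    have hy0 : 0 < y := by positivity
    have hy1 : 1 < y := by
      by_contra hcon
      have := Real.log_nonpos hy0.le (not_lt.mp hcon)
      linarith
    have h2 := Mc_le hn hy1
    have e1 : 1 / u + 1 / (1 - 3 * (Real.log u / u)) = (y + n * (1 / (Real.log y * u))) * u ^ 2 / n := by
      have e2 : (1 / (1 - 3 * (Real.log u / u))) = 1 / Real.log y * u := by
        have h3 : Real.log y = u * (1 - 3 * (Real.log u / u)) := by
          rw [hlogy]
          field_simp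
        have h4 : 1 - 3 * (Real.log u / u) ≠ 0 := by linarith
        rw [h3]
        field_simp
      rw [e2, hy]
      have hly : Real.log (↑n / u ^ 3) ≠ 0 := by
        rw [hy] at hlogy0
        exact hlogy0.ne'
      field_simp
    rw [e1]
    apply div_le_div_of_nonneg_right _ hn0.le
    exact mul_le_mul_of_nonneg_right h2 (by positivity)

end Pool.Agent.W2helper64.GB
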