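import Pool.Agent.W2helper64.GB.Lim

set_option autoImplicit false
set_option linter.unusedSectionVars false

/-!
Goldbach partitions in the random sieve: the asymptotic formula for every large even number.
-/

namespace Pool.Agent.W2helper64.GB

open Finset Filter Topology Polynomial MeasureTheory Pool.Agent.W2helper64.RS Pool.Agent.W2helper64.RK
open Pool.Agent.W2helper64.BH
open Pool.Agent.H373R2.T7 (pz nuB PerB sys_count nuB_le mem_pz)

/-- both numbers are in the random set -/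
def Two (N : ℕ) (a : (p : Nat.Primes) → ZMod (p : ℕ)) (r : ℕ) : Prop := r ∈ R a ∧ N - r ∈ R a

/-- the number of partitions `2 n = r + s` with `√(2 n) < r ≤ n` -/
noncomputable def Kc (n : ℕ) (a : (p : Nat.Primes) → ZMod (p : ℕ)) : ℕ :=
  (@Finset.filter ℕ (Two (2 * n) a) (Classical.decPred _) ((Icc 1 n).filter fun r => 2 * n < r ^ 2)).card

/-- the main term -/
noncomputable def Mc (n : ℕ) : ℝ :=
  ∑ r ∈ (Icc 1 n).filter (fun r => 2 * n < r ^ 2), 1 / (Real.log r * Real.log (2 * n - r))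

theorem allR_gN {N n : ℕ} (hn : n ≤ N) (a : (p : Nat.Primes) → ZMod (p : ℕ)) :
    AllR (gN N) a n ↔ Two N a n := by
  unfold AllR Two
  constructor
  · intro h
    obtain ⟨r, hr, he⟩ := h 0
    obtain ⟨s, hs, hf⟩ := h 1
    rw [gN0] at he
    rw [gN1] at hf
    have e1 : r = n := by exact_mod_cast he
    have e2 : s = N - n := by omega
    rw [← e2, ← e1]
    exact ⟨hr, hs⟩
  · rintro ⟨h1, h2⟩ i
    fin_cases i
    · refine ⟨n, h1, ?_⟩
      show (n : ℤ) = (gN N 0).eval (n : ℤ)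
      rw [gN0]
    · refine ⟨N - n, h2, ?_⟩
      show ((N - n : ℕ) : ℤ) = (gN N 1).eval (n : ℤ)
      rw [gN1]
      omega

theorem sum_close {S T D1 D2 : Finset ℕ} (h1 : S ⊆ T ∪ D1) (h2 : T ⊆ S ∪ D2) (f : ℕ → ℝ)
    (hf : ∀ n ∈ S ∪ T, 0 ≤ f n ∧ f n ≤ 1) :
    |∑ n ∈ S, f n - ∑ n ∈ T, f n| ≤ D1.card + D2.card := by
  classical
  have e1 : ∑ n ∈ S, f n = ∑ n ∈ S ∩ T, f n + ∑ n ∈ S \ T, f n := by
    rw [← sum_union (disjoint_sdiff_inter S T).symm, Finset.union_comm, sdiff_union_inter]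
  have e2 : ∑ n ∈ T, f n = ∑ n ∈ S ∩ T, f n + ∑ n ∈ T \ S, f n := by
    rw [inter_comm S T, ← sum_union (disjoint_sdiff_inter T S).symm, Finset.union_comm, sdiff_union_inter]
  have b1 : 0 ≤ ∑ n ∈ S \ T, f n ∧ ∑ n ∈ S \ T, f n ≤ D1.card := by
    constructor
    · exact sum_nonneg fun n hn => (hf n (mem_union_left _ (mem_sdiff.mp hn).1)).1
    · calc ∑ n ∈ S \ T, f n ≤ ∑ n ∈ S \ T, (1 : ℝ) :=
            sum_le_sum fun n hn => (hf n (mem_union_left _ (mem_sdiff.mp hn).1)).2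
        _ = ((S \ T).card : ℝ) := by rw [sum_const, nsmul_eq_mul, mul_one]
        _ ≤ D1.card := by
            exact_mod_cast card_le_card fun n hn => by
              rw [Finset.mem_sdiff] at hn
              rcases Finset.mem_union.mp (h1 hn.1) with h | h
              · exact absurd h hn.2
              · exact h
  have b2 : 0 ≤ ∑ n ∈ T \ S, f n ∧ ∑ n ∈ T \ S, f n ≤ D2.card := by
    constructor
    · exact sum_nonneg fun n hn => (hf n (mem_union_right _ (mem_sdiff.mp hn).1)).1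
    · calc ∑ n ∈ T \ S, f n ≤ ∑ n ∈ T \ S, (1 : ℝ) :=
            sum_le_sum fun n hn => (hf n (mem_union_right _ (mem_sdiff.mp hn).1)).2
        _ = ((T \ S).card : ℝ) := by rw [sum_const, nsmul_eq_mul, mul_one]
        _ ≤ D2.card := by
            exact_mod_cast card_le_card fun n hn => by
              rw [Finset.mem_sdiff] at hn
              rcases Finset.mem_union.mp (h2 hn.1) with h | h
              · exact absurd h hn.2
              · exact h
  rw [e1, e2, abs_le]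
  have c1 : (0 : ℝ) ≤ D1.card := Nat.cast_nonneg _
  have c2 : (0 : ℝ) ≤ D2.card := Nat.cast_nonneg _
  constructor <;> linarith [b1.1, b1.2, b2.1, b2.2]

theorem range_sub1 (x : ℕ) : (Icc 1 (x + 1)).filter (fun r => 2 * (x + 1) < r ^ 2) ⊆ Ioc (mz x) x ∪ {x + 1} := by
  intro r hr
  rw [Finset.mem_filter, mem_Icc] at hr
  rw [Finset.mem_union, mem_Ioc, mem_singleton]
  obtain ⟨⟨h1, h2⟩, h3⟩ := hr
  rcases Nat.lt_or_ge x r with h4 | h4
  · right; omega
  · left
    refine ⟨?_, h4⟩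
    by_contra hcon
    have h5 : r ≤ Nat.sqrt x + 1 := by unfold mz at hcon; omega
    have h6 : r ^ 2 ≤ (Nat.sqrt x + 1) ^ 2 := Nat.pow_le_pow_left h5 2
    have h7 : Nat.sqrt x * Nat.sqrt x ≤ x := Nat.sqrt_le x
    have h8 : 2 * Nat.sqrt x ≤ Nat.sqrt x * Nat.sqrt x + 1 := by
      nlinarith [sq_nonneg ((Nat.sqrt x : ℤ) - 1)]
    nlinarith

theorem range_sub2 (x : ℕ) : Ioc (mz x) x ⊆
    (Icc 1 (x + 1)).filter (fun r => 2 * (x + 1) < r ^ 2) ∪ Icc 1 (Nat.sqrt (2 * (x + 1))) := by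
  intro r hr
  rw [mem_Ioc] at hr
  rw [Finset.mem_union, Finset.mem_filter, mem_Icc, mem_Icc]
  by_cases h : 2 * (x + 1) < r ^ 2
  · left
    exact ⟨⟨by omega, by omega⟩, h⟩
  · right
    refine ⟨by omega, Nat.le_sqrt'.mpr (by omega)⟩

theorem NN_eq {E x : ℕ} (G : GoodG (gN (2 * x + 2)) 2 E x) (a : (p : Nat.Primes) → ZMod (p : ℕ)) :
    NN (gN (2 * x + 2)) 2 x ((PX (TT 2 x)).restrict a) =
      ∑ r ∈ Ioc (mz x) x, (@ite ℝ (Two (2 * (x + 1)) a r) (Classical.dec _) 1 0) := by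
  classical
  have h1 : NN (gN (2 * x + 2)) 2 x ((PX (TT 2 x)).restrict a) =
      (((Ioc (mz x) x).filter fun r => Two (2 * (x + 1)) a r).card : ℝ) := by
    unfold NN
    congr 2
    ext n
    unfold survW
    rw [Finset.mem_filter, Finset.mem_filter]
    refine and_congr_right fun hn => ?_
    rw [mem_Ioc] at hn
    have h2 := R_iffG G a hn.1 hn.2
    rw [show 2 * (x + 1) = 2 * x + 2 by ring, ← allR_gN (by omega : n ≤ 2 * x + 2), h2]
    exact ⟨fun h p => h p (Finset.mem_univ _), fun h p _ => h p⟩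
  rw [h1, ← sum_filter, sum_const, nsmul_eq_mul, mul_one]

theorem Kc_eq (n : ℕ) (a : (p : Nat.Primes) → ZMod (p : ℕ)) :
    (Kc n a : ℝ) = ∑ r ∈ (Icc 1 n).filter (fun r => 2 * n < r ^ 2), (@ite ℝ (Two (2 * n) a r) (Classical.dec _) 1 0) := by
  classical
  unfold Kc
  rw [← sum_filter, sum_const, nsmul_eq_mul, mul_one]

theorem K_close {E x : ℕ} (G : GoodG (gN (2 * x + 2)) 2 E x) (a : (p : Nat.Primes) → ZMod (p : ℕ)) :
    |(Kc (x + 1) a : ℝ) - NN (gN (2 * x + 2)) 2 x ((PX (TT 2 x)).restrict a)| ≤ Nat.sqrt (2 * (x + 1)) + 1 := by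
  rw [Kc_eq, NN_eq G]
  refine (sum_close (range_sub1 x) (range_sub2 x) _ fun n _ => ?_).trans ?_
  · split_ifs <;> norm_num
  · rw [card_singleton, Nat.card_Icc, Nat.add_sub_cancel]
    push_cast
    linarith

theorem M_close {x : ℕ} (hx : 100 ≤ x) :
    |Mc (x + 1) - ∑ n ∈ Ioc (mz x) x, hh (gN (2 * x + 2)) n| ≤ Nat.sqrt (2 * (x + 1)) + 1 := by
  have h1 : ∑ n ∈ Ioc (mz x) x, hh (gN (2 * x + 2)) n =
      ∑ r ∈ Ioc (mz x) x, 1 / (Real.log r * Real.log (2 * ((x + 1 : ℕ) : ℝ) - r)) := by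
    refine sum_congr rfl fun n _ => ?_
    rw [hh_gN, one_div_mul_one_div]
    congr 3
    push_cast
    ring
  rw [h1]
  unfold Mc
  have hmz10 : 10 ≤ mz x := by
    unfold mz
    have : 10 ≤ Nat.sqrt x := Nat.le_sqrt.mpr (by omega)
    omega
  refine (sum_close (range_sub1 x) (range_sub2 x) _ fun n hn => ?_).trans ?_
  · have h2 : 8 ≤ n ∧ n ≤ x + 1 := by
      rcases Finset.mem_union.mp hn with h | h
      · rcases Finset.mem_union.mp (range_sub1 x h) with h3 | h3
        · rw [mem_Ioc] at h3; omega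
        · rw [mem_singleton] at h3; omega
      · rw [mem_Ioc] at h; omega
    have h3 : (8 : ℝ) ≤ n := by exact_mod_cast h2.1
    have h4 : (n : ℝ) ≤ x + 1 := by exact_mod_cast h2.2
    have h5 : 2 ≤ Real.log n := log8.trans (Real.log_le_log (by norm_num) h3)
    have h6 : 2 ≤ Real.log (2 * ((x + 1 : ℕ) : ℝ) - n) := by
      refine log8.trans (Real.log_le_log (by norm_num) ?_)
      push_cast
      linarith
    have h7 : 1 ≤ Real.log n * Real.log (2 * ((x + 1 : ℕ) : ℝ) - n) := by nlinarith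
    exact ⟨by positivity, by rw [div_le_one (by linarith)]; exact h7⟩
  · rw [card_singleton, Nat.card_Icc, Nat.add_sub_cancel]
    push_cast
    linarith

theorem H_le {E x : ℕ} (G : GoodG (gN (2 * x + 2)) 2 E x) :
    0 ≤ ∑ n ∈ Ioc (mz x) x, hh (gN (2 * x + 2)) n ∧ ∑ n ∈ Ioc (mz x) x, hh (gN (2 * x + 2)) n ≤ x := by
  have h1 : ∀ n ∈ Ioc (mz x) x, 0 ≤ hh (gN (2 * x + 2)) n ∧ hh (gN (2 * x + 2)) n ≤ 1 := by
    intro n hn
    rw [mem_Ioc] at hn
    have h := hhG_facts G n hn.1.le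
    rw [if_pos hn.2] at h
    exact ⟨h.1, h.2.1⟩
  refine ⟨sum_nonneg fun n hn => (h1 n hn).1, ?_⟩
  refine (sum_le_sum fun n hn => (h1 n hn).2).trans ?_
  rw [sum_const, nsmul_eq_mul, mul_one, Nat.card_Ioc]
  exact_mod_cast Nat.sub_le _ _

theorem SN_le {E x : ℕ} (G : GoodG (gN (2 * x + 2)) 2 E x) (a : (p : Nat.Primes) → ZMod (p : ℕ)) :
    0 ≤ SN (2 * x + 2) a (zz E x) ∧ SN (2 * x + 2) a (zz E x) ≤ Real.log x := by
  have hP : 0 ≤ PP (gN (2 * x + 2)) a (zz E x) ∧ PP (gN (2 * x + 2)) a (zz E x) ≤ 1 := by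
    have h1 : ∀ p ∈ pz (zz E x), 0 ≤ 1 - (nuB (Hit (gN (2 * x + 2)) a) p : ℝ) / p ∧
        1 - (nuB (Hit (gN (2 * x + 2)) a) p : ℝ) / p ≤ 1 := by
      intro p hp
      have h2 : (nuB (Hit (gN (2 * x + 2)) a) p : ℝ) ≤ p := by exact_mod_cast nuB_le _ p
      have h3 : (0 : ℝ) < p := by exact_mod_cast (mem_pz.1 hp).2.pos
      have h4 : (nuB (Hit (gN (2 * x + 2)) a) p : ℝ) / p ≤ 1 := by rw [div_le_one h3]; exact h2
      have h5 : 0 ≤ (nuB (Hit (gN (2 * x + 2)) a) p : ℝ) / p := by positivity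
      constructor <;> linarith
    unfold PP
    exact ⟨prod_nonneg fun p hp => (h1 p hp).1, prod_le_one (fun p hp => (h1 p hp).1) fun p hp => (h1 p hp).2⟩
  have hV := V_pos (zz E x)
  rw [← SN_eq]
  constructor
  · exact div_nonneg hP.1 (by positivity)
  · refine le_trans ?_ G.invV
    rw [one_div, inv_pow, ← one_div]
    exact div_le_div_of_nonneg_right hP.2 (by positivity)

theorem Ts_mono (N z : ℕ) (hz : 2 ≤ z) (a : (p : Nat.Primes) → ZMod (p : ℕ)) : Monotone fun M => Ts N z M a := by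
  classical
  intro M M' h
  show Ts N z M a ≤ Ts N z M' a
  unfold Ts
  apply sum_le_sum_of_subset_of_nonneg
  · intro p hp
    rw [mem_Pr] at hp ⊢
    omega
  · intro p _ _
    have hp : (2 : ℝ) ≤ ((p : ℕ) : ℝ) := by exact_mod_cast p.2.two_le
    split_ifs
    · have : 0 < ((p : ℕ) : ℝ) - 1 := by linarith
      positivity
    · exact le_rfl

/-- the tails of all singular series are small, almost surely -/
theorem ae_tails (W E : ℕ) (hE : W + 3 ≤ E) : ∀ᵐ a ∂law, ∀ᶠ x : ℕ in atTop,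
    ∀ M, Ts (2 * x + 2) (zz E x) M a < 1 / Real.log x ^ W := by
  have hb := bc (fun x => {a | ∃ M, 1 / Real.log x ^ W ≤ Ts (2 * x + 2) (zz E x) M a}) 1 (by norm_num) (by
    filter_upwards [ev_log 16, eventually_ge_atTop 2] with x hL hx2
    set L : ℝ := Real.log x with hLd
    have hL1 : 1 ≤ L := by linarith
    have hL0 : 0 < L := by linarith
    have hx0 : (0 : ℝ) < x := by exact_mod_cast (by omega : 0 < x)
    have hzlow : L ^ E / 2 ≤ zz E x := by
      have h1 : L ^ E < (⌊L ^ E⌋₊ : ℝ) + 1 := Nat.lt_floor_add_one _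
      have h2 : (zz E x : ℝ) = (⌊L ^ E⌋₊ : ℝ) := rfl
      have h3 : L ≤ L ^ E := le_self_pow₀ hL1 (by omega)
      rw [h2]
      linarith
    have hz2 : 2 ≤ zz E x := by
      have h3 : L ≤ L ^ E := le_self_pow₀ hL1 (by omega)
      have : (2 : ℝ) ≤ zz E x := by linarith
      exact_mod_cast this
    have h1 : {a | ∃ M, 1 / L ^ W ≤ Ts (2 * x + 2) (zz E x) M a} =
        ⋃ M : ℕ, {a | 1 / L ^ W ≤ Ts (2 * x + 2) (zz E x) M a} := by
      ext a
      simp
    rw [h1, Monotone.measure_iUnion]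
    swap
    · intro M M' h a ha
      exact le_trans ha (Ts_mono _ _ hz2 a h)
    refine iSup_le fun M => (law_tail (2 * x + 2) (zz E x) M hz2 (1 / L ^ W)).trans ?_
    apply ENNReal.ofReal_le_ofReal
    have h2 : 2 * L + 8 ≤ zz E x * (1 / L ^ W) := by
      have h3 : L ^ (W + 3) ≤ L ^ E := pow_le_pow_right₀ hL1 hE
      have h4 : L ^ (W + 3) / 2 * (1 / L ^ W) ≤ zz E x * (1 / L ^ W) :=
        mul_le_mul_of_nonneg_right (by linarith) (by positivity)
      have h5 : L ^ (W + 3) / 2 * (1 / L ^ W) = L ^ 3 / 2 := by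
        rw [pow_add]; field_simp
      rw [h5] at h4
      refine le_trans ?_ h4
      have h6 : 256 * L ≤ L ^ 3 := by nlinarith [mul_self_nonneg (L - 16), mul_nonneg hL0.le (sub_nonneg.mpr hL)]
      nlinarith
    calc Real.exp (8 - zz E x * (1 / L ^ W)) ≤ Real.exp (-(2 * L)) := Real.exp_le_exp.mpr (by linarith)
      _ = 1 * (1 / (x : ℝ) ^ 2) := by
          rw [Real.exp_neg, one_mul, one_div]
          congr 1
          rw [hLd, ← Real.exp_log hx0, Real.log_exp, ← Real.exp_nat_mul]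
          norm_num)
  filter_upwards [hb] with a ha
  filter_upwards [ha] with x hx M
  by_contra hcon
  exact hx ⟨M, not_lt.mp hcon⟩

/-- the asymptotic formula for the partitions of every large even number, almost surely -/
theorem ae_gold_asymp : ∀ᵐ a ∂law, ∀ U : ℕ, ∀ᶠ n : ℕ in atTop, ∃ S : ℝ, 1 ≤ S ∧
    Tendsto (fun z => SN (2 * n) a z) atTop (𝓝 S) ∧ |(Kc n a : ℝ) - S * Mc n| ≤ n / Real.log n ^ U := by
  rw [ae_all_iff]
  intro U
  set U1 := U + 1 with hU1
  set E := 2 * U1 + 10 with hE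
  filter_upwards [ae_trunc U1 E (by omega), ae_tails (U1 + 2) E (by omega)] with a h1 h2
  have h3 : ∀ᶠ x : ℕ in atTop, ∃ S : ℝ, 1 ≤ S ∧
      Tendsto (fun z => SN (2 * (x + 1)) a z) atTop (𝓝 S) ∧
        |(Kc (x + 1) a : ℝ) - S * Mc (x + 1)| ≤ ((x + 1 : ℕ) : ℝ) / Real.log ((x + 1 : ℕ) : ℝ) ^ U := by
    filter_upwards [h1, h2, ev_goodG E (by omega), ev_log (144 + (C0 2 2 U1 + 19) * 2 ^ U), ev_pow (2 * U1 + 3),
      eventually_ge_atTop 100] with x h4 h5 G hL0' hpow hx100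
    have hC0 : 0 ≤ C0 2 2 U1 := by unfold C0; positivity
    have hC2 : 0 ≤ (C0 2 2 U1 + 19) * 2 ^ U := by positivity
    have hx1 : (100 : ℝ) ≤ x := by exact_mod_cast hx100
    have hx0 : (0 : ℝ) < x := by linarith
    set L : ℝ := Real.log x with hLd
    have hL : 144 ≤ L := by linarith
    have hL1 : 1 ≤ L := by linarith
    have hL0 : 0 < L := by linarith
    have hLC : (C0 2 2 U1 + 19) * 2 ^ U ≤ L := by linarith
    set z := zz E x with hz
    have hzlow := G.zlow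
    have hz2 : 2 ≤ z := by have := G.zg; omega
    have hz0 : (0 : ℝ) < z := by exact_mod_cast (by omega : 0 < z)
    set t : ℝ := 1 / L ^ (U1 + 2) with ht
    have ht0 : 0 < t := by positivity
    have htL : t ≤ 1 / L ^ 1 := one_div_le_one_div_of_le (by positivity) (pow_le_pow_right₀ hL1 (by omega))
    rw [pow_one] at htL
    have hL' : 1 / L ≤ 1 / 144 := one_div_le_one_div_of_le (by norm_num) hL
    obtain ⟨S, s1, s2, s3⟩ := series_lim (N := 2 * x + 2) ⟨x + 1, by ring⟩ a hz2 ht0.le (by linarith) h5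
    rw [show 2 * (x + 1) = 2 * x + 2 by ring]
    refine ⟨S, s1, s2, ?_⟩
    obtain ⟨b1, b2⟩ := SN_le G a
    obtain ⟨c1, c2⟩ := H_le G
    have k1 := K_close G a
    have m1 := M_close hx100
    rw [SN_eq] at h4
    set K : ℝ := (Kc (x + 1) a : ℝ)
    set NNx := NN (gN (2 * x + 2)) 2 x ((PX (TT 2 x)).restrict a)
    set H := ∑ n ∈ Ioc (mz x) x, hh (gN (2 * x + 2)) n
    set Sz := SN (2 * x + 2) a z with hSz
    set q : ℝ := (Nat.sqrt (2 * (x + 1)) : ℝ) + 1 with hq
    -- 8 / z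
    have hz8 : 8 / (z : ℝ) ≤ 16 * t := by
      rw [ht, mul_one_div, div_le_div_iff₀ hz0 (by positivity)]
      have h6 : L ^ (U1 + 2) ≤ L ^ E := pow_le_pow_right₀ hL1 (by omega)
      linarith
    have hδ : 8 / (z : ℝ) + 2 * t ≤ 18 * t := by linarith
    have hd1 : |Sz - S| ≤ L * (18 * t) := s3.trans (mul_le_mul b2 hδ (by positivity) hL0.le)
    have hLt : L * (18 * t) = 18 * (1 / L ^ (U1 + 1)) := by
      rw [ht, show L ^ (U1 + 2) = L ^ (U1 + 1) * L by ring]
      field_simp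
    have hpowle : 1 / L ^ (U1 + 1) ≤ 1 / L ^ U1 :=
      one_div_le_one_div_of_le (by positivity) (pow_le_pow_right₀ hL1 (by omega))
    have hone : 1 / L ^ (U1 + 1) ≤ 1 := by
      rw [div_le_one (by positivity)]
      exact one_le_pow₀ hL1
    have hS : S ≤ 2 * L := by
      have h6 := (abs_le.mp hd1).1
      rw [hLt] at h6
      linarith
    -- q
    have hq1 : q ≤ 4 * √(x : ℝ) := by
      have h6 : ((Nat.sqrt (2 * (x + 1)) : ℕ) : ℝ) ≤ √(((2 * (x + 1) : ℕ)) : ℝ) := by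
        apply Real.le_sqrt_of_sq_le
        exact_mod_cast Nat.sqrt_le' _
      have h7 : √(((2 * (x + 1) : ℕ)) : ℝ) ≤ √(4 * x : ℝ) := by
        apply Real.sqrt_le_sqrt
        push_cast
        linarith
      have h8 : √(4 * x : ℝ) = 2 * √(x : ℝ) := by
        rw [Real.sqrt_mul (by norm_num), show (4 : ℝ) = 2 ^ 2 by norm_num, Real.sqrt_sq (by norm_num)]
      have h9 : 1 ≤ √(x : ℝ) := by
        rw [Real.one_le_sqrt]; linarith
      rw [hq]
      linarith
    have hq0 : 0 ≤ q := by positivity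
    have hsq : √(x : ℝ) * √(x : ℝ) = x := Real.mul_self_sqrt hx0.le
    have hs0 : 0 < √(x : ℝ) := Real.sqrt_pos.mpr hx0
    have hsl : 12 * L ^ (U1 + 1) ≤ √(x : ℝ) := by
      apply Real.le_sqrt_of_sq_le
      calc (12 * L ^ (U1 + 1)) ^ 2 = 144 * L ^ (2 * U1 + 2) := by ring
        _ ≤ L * L ^ (2 * U1 + 2) := mul_le_mul_of_nonneg_right hL (by positivity)
        _ = L ^ (2 * U1 + 3) := by ring
        _ ≤ x := hpow
    have hfin : (1 + 2 * L) * q ≤ x / L ^ U1 := by
      rw [le_div_iff₀ (by positivity)]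
      calc (1 + 2 * L) * q * L ^ U1 ≤ (3 * L) * (4 * √(x : ℝ)) * L ^ U1 := by
            apply mul_le_mul_of_nonneg_right _ (by positivity)
            exact mul_le_mul (by linarith) hq1 hq0 (by positivity)
        _ = (12 * L ^ (U1 + 1)) * √(x : ℝ) := by ring
        _ ≤ √(x : ℝ) * √(x : ℝ) := mul_le_mul_of_nonneg_right hsl hs0.le
        _ = x := hsq
    -- collecting
    have t1 : |Sz * H - S * H| ≤ 18 * (x / L ^ U1) := by
      rw [← sub_mul, abs_mul, abs_of_nonneg c1]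
      calc |Sz - S| * H ≤ (18 * (1 / L ^ (U1 + 1))) * x := mul_le_mul (hd1.trans hLt.le) c2 c1 (by positivity)
        _ ≤ (18 * (1 / L ^ U1)) * x := by
            apply mul_le_mul_of_nonneg_right _ hx0.le
            linarith
        _ = _ := by ring
    have t2 : |S * H - S * Mc (x + 1)| ≤ 2 * L * q := by
      rw [← mul_sub, abs_mul, abs_of_nonneg (by linarith : (0 : ℝ) ≤ S), abs_sub_comm]
      exact mul_le_mul hS m1 (abs_nonneg _) (by positivity)
    have t3 : |K - S * Mc (x + 1)| ≤ q + C0 2 2 U1 * (x / L ^ U1) + 18 * (x / L ^ U1) + 2 * L * q := by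
      have e1 : K - S * Mc (x + 1) = (K - NNx) + (NNx - Sz * H) + (Sz * H - S * H) + (S * H - S * Mc (x + 1)) := by ring
      rw [e1]
      refine (abs_add_le _ _).trans (add_le_add ((abs_add_le _ _).trans (add_le_add ((abs_add_le _ _).trans
        (add_le_add k1 h4)) t1)) t2)
    have t4 : |K - S * Mc (x + 1)| ≤ (C0 2 2 U1 + 19) * (x / L ^ U1) := by
      refine t3.trans ?_
      have : q + 2 * L * q = (1 + 2 * L) * q := by ring
      linarith
    refine t4.trans ?_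
    have hl2 : Real.log ((x + 1 : ℕ) : ℝ) ≤ 2 * L := by
      have h6 : ((x + 1 : ℕ) : ℝ) ≤ x * x := by push_cast; nlinarith
      refine (Real.log_le_log (by positivity) h6).trans ?_
      rw [Real.log_mul hx0.ne' hx0.ne']
      linarith
    have hl0 : 0 < Real.log ((x + 1 : ℕ) : ℝ) := Real.log_pos (by push_cast; linarith)
    calc (C0 2 2 U1 + 19) * (x / L ^ U1) ≤ x / (2 * L) ^ U := by
          rw [← mul_div_assoc, div_le_div_iff₀ (by positivity) (by positivity), mul_pow, hU1]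
          calc (C0 2 2 (U + 1) + 19) * x * (2 ^ U * L ^ U) = ((C0 2 2 (U + 1) + 19) * 2 ^ U) * (x * L ^ U) := by ring
            _ ≤ L * (x * L ^ U) := mul_le_mul_of_nonneg_right hLC (by positivity)
            _ = x * L ^ (U + 1) := by ring
      _ ≤ ((x + 1 : ℕ) : ℝ) / (2 * L) ^ U := by
          apply div_le_div_of_nonneg_right _ (by positivity)
          push_cast; linarith
      _ ≤ _ := by
          apply div_le_div_of_nonneg_left (by positivity) (by positivity)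
          exact pow_le_pow_left₀ hl0.le hl2 U
  have h4 := (tendsto_sub_atTop_nat 1).eventually h3
  filter_upwards [h4, eventually_ge_atTop 1] with n h5 h6
  rwa [Nat.sub_add_cancel h6] at h5

end Pool.Agent.W2helper64.GB
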