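import Pool.Agent.W2helper64.BH.Final

set_option autoImplicit false
set_option linter.unusedSectionVars false

/-!
The asymptotic formula of the random sieve for a single system, with explicit conditions on `x`.
-/

namespace Pool.Agent.W2helper64.GB

open Finset Filter Topology Polynomial MeasureTheory Pool.Agent.W2helper64.RS Pool.Agent.W2helper64.RK
open Pool.Agent.W2helper64.BH
open Pool.Agent.H373R2.T7 (pz nuB PerB sys_count nuB_le mem_pz)

/-- the properties which will be used -/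
structure GoodG {g : ℕ} (f : Fin g → ℤ[X]) (k E x : ℕ) : Prop where
  L1 : 16 ≤ Real.log x
  z1 : 1 ≤ zz E x
  zg : 2 * g ≤ zz E x
  zlow : Real.log x ^ E / 2 ≤ zz E x
  invV : (1 / V (zz E x)) ^ g ≤ Real.log x
  T1 : 1 ≤ TT k x
  mzx : mz x ≤ x
  sys : ∀ n : ℕ, mz x ≤ n → n ≤ x → (∀ i, 8 ≤ (f i).eval (n : ℤ)) ∧
    (∀ i, 2 ≤ lam f i n ∧ lam f i n ≤ TT k x ∧ 1 ≤ V (zz E x) * lam f i n) ∧
    (∀ i j, i ≠ j → (f i).eval (n : ℤ) - (f j).eval (n : ℤ) ≠ 0) ∧
    (∀ i j, i ≠ j → Real.log |(((f i).eval (n : ℤ) - (f j).eval (n : ℤ) : ℤ) : ℝ)| ≤ TT k x)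
  mono : ∀ n : ℕ, mz x ≤ n → n + 1 ≤ x → hh f (n + 1) ≤ hh f n

theorem hhG_facts {g : ℕ} {f : Fin g → ℤ[X]} {k E x : ℕ} (G : GoodG f k E x) (n : ℕ) (hn : mz x ≤ n) :
    0 ≤ (if n ≤ x then hh f n else 0) ∧ (if n ≤ x then hh f n else 0) ≤ 1 ∧
      (if n + 1 ≤ x then hh f (n + 1) else 0) ≤ (if n ≤ x then hh f n else 0) := by
  by_cases h : n ≤ x
  · obtain ⟨-, h2, -, -⟩ := G.sys n hn h
    have h3 : 0 ≤ hh f n := prod_nonneg fun i _ => by have := (h2 i).1; positivity
    have h4 : hh f n ≤ 1 := by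
      refine prod_le_one (fun i _ => ?_) fun i _ => ?_
      · have := (h2 i).1; positivity
      · have := (h2 i).1
        rw [div_le_one (by linarith)]; linarith
    rw [if_pos h]
    refine ⟨h3, h4, ?_⟩
    split_ifs with h5
    · exact G.mono n hn h5
    · exact h3
  · rw [if_neg h, if_neg (by omega)]
    exact ⟨le_rfl, zero_le_one, le_rfl⟩

theorem surv_K0G {g : ℕ} {f : Fin g → ℤ[X]} {k E x : ℕ} (G : GoodG f k E x) (a : (p : Nat.Primes) → ZMod (p : ℕ)) :
    survW (Ioc (mz x) x) (fun (p : {p // p ∈ PX (TT k x)}) n => Ph f (p : Nat.Primes) n) (K0 k E x)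
      ((PX (TT k x)).restrict a) =
    @Finset.filter ℕ (fun n => ∀ p ∈ pz (zz E x), ¬ Hit f a p n) (Classical.decPred _) (Ioc (mz x) x) := by
  classical
  ext n
  rw [mf']
  unfold survW
  rw [Finset.mem_filter]
  refine and_congr_right fun hn => ?_
  rw [mem_Ioc] at hn
  obtain ⟨-, h2, -, -⟩ := G.sys n hn.1.le hn.2
  constructor
  · rintro h p hp ⟨hpp, i, hi⟩
    obtain ⟨hpz, -⟩ := mem_pz.1 hp
    have hVp : V (zz E x) ≤ V p := V_anti hpz
    obtain ⟨l1, l2, l3⟩ := h2 i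
    have hlam : 1 ≤ V p * lam f i n := l3.trans (mul_le_mul_of_nonneg_right hVp (by linarith))
    have hPX : (⟨p, hpp⟩ : Nat.Primes) ∈ PX (TT k x) :=
      mem_PX.mpr (hlam.trans (mul_le_mul_of_nonneg_left l2 (V_nonneg _)))
    refine h ⟨⟨p, hpp⟩, hPX⟩ ?_ ?_
    · unfold K0
      rw [Finset.mem_filter]
      exact ⟨Finset.mem_univ _, not_lt.mpr hpz⟩
    · unfold Ph
      rw [Finset.mem_image]
      refine ⟨i, ?_, hi⟩
      unfold rel
      rw [Finset.mem_filter]
      exact ⟨Finset.mem_univ _, hlam⟩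
  · intro h p hp hmem
    unfold K0 at hp
    rw [Finset.mem_filter] at hp
    unfold Ph at hmem
    rw [Finset.mem_image] at hmem
    obtain ⟨i, -, hi⟩ := hmem
    refine h ((p : Nat.Primes) : ℕ) ?_ ⟨(p : Nat.Primes).2, i, hi⟩
    rw [mem_pz]
    exact ⟨not_lt.mp hp.2, (p : Nat.Primes).2⟩

theorem WW_closeG {g : ℕ} {f : Fin g → ℤ[X]} {k E x : ℕ} (G : GoodG f k E x) {u : ℝ} (hu : |u| ≤ 1)
    (a : (p : Nat.Primes) → ZMod (p : ℕ)) :
    |WW f k E x u ((PX (TT k x)).restrict a) - (1 / V (zz E x)) ^ g *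
      ∑ n ∈ @Finset.filter ℕ (fun n => ∀ p ∈ pz (zz E x), ¬ Hit f a p n) (Classical.decPred _) (Ioc (mz x) x),
        hh f n| ≤ x * (|u| * g * TT k x + g * g ^ 2 * (2 * TT k x) / zz E x + g ^ 2 * (2 / zz E x) +
          Real.log x * (g * (2 / zz E x))) := by
  classical
  unfold WW
  rw [surv_K0G G a, mul_sum, ← sum_sub_distrib]
  set S := @Finset.filter ℕ (fun n => ∀ p ∈ pz (zz E x), ¬ Hit f a p n) (Classical.decPred _) (Ioc (mz x) x)
  have hT0 : 0 < TT k x := by linarith [G.T1]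
  have hz0 : (0 : ℝ) < zz E x := by exact_mod_cast G.z1
  have hL := G.L1
  set δ : ℝ := |u| * g * TT k x + g * g ^ 2 * (2 * TT k x) / zz E x + g ^ 2 * (2 / zz E x) +
          Real.log x * (g * (2 / zz E x)) with hδ
  have hδ0 : 0 ≤ δ := by positivity
  have h1 : ∀ n ∈ S, |∏ p ∈ KK k E x, (1 - (1 - u) * ((Ph f (p : Nat.Primes) n).card : ℝ) /
      (((p : Nat.Primes) : ℕ) : ℝ)) - (1 / V (zz E x)) ^ g * hh f n| ≤ δ := by
    intro n hn
    have hn' := (mf'.mp hn).1
    rw [mem_Ioc] at hn'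
    obtain ⟨-, h2, h3, h4⟩ := G.sys n hn'.1.le hn'.2
    have h5 := pointwise f (u := u) G.T1 G.z1 G.zg hT0.le (fun i => by linarith [(h2 i).1]) (fun i => (h2 i).2.1)
      (fun i => (h2 i).2.2) h3 h4 hu
    refine h5.trans ?_
    rw [hδ]
    refine add_le_add (add_le_add_left (add_le_add_left ?_ _) _) ?_
    · apply mul_le_mul_of_nonneg_left _ (by positivity)
      have := Real.log_le_sub_one_of_pos hT0
      linarith
    · exact mul_le_mul_of_nonneg_right G.invV (by positivity)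
  refine (abs_sum_le_sum_abs _ _).trans ((sum_le_sum h1).trans ?_)
  rw [sum_const, nsmul_eq_mul]
  apply mul_le_mul_of_nonneg_right _ hδ0
  have h2 : S.card ≤ x := by
    have h3 : S.card ≤ (Ioc (mz x) x).card := card_le_card fun n hn => (mf'.mp hn).1
    rw [Nat.card_Ioc] at h3
    omega
  exact_mod_cast h2

theorem NN_closeG {g : ℕ} {f : Fin g → ℤ[X]} {k E U x : ℕ} (G : GoodG f k E x) (hE : U + 1 ≤ E)
    (a : (p : Nat.Primes) → ZMod (p : ℕ))
    (hc1 : NN f k x ((PX (TT k x)).restrict a) ≤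
        WW f k E x (1 / Real.log x ^ (U + 2)) ((PX (TT k x)).restrict a) + x / Real.log x ^ U)
    (hc2 : WW f k E x (-(1 / Real.log x ^ (U + 2))) ((PX (TT k x)).restrict a) - x / Real.log x ^ U ≤
        NN f k x ((PX (TT k x)).restrict a))
    (hcount : ∀ y, mz x ≤ y → y ≤ x →
      |(((@Finset.filter ℕ (fun n => ∀ p ∈ pz (zz E x), ¬ Hit f a p n) (Classical.decPred _) (Ioc (mz x) y)).card : ℕ) : ℝ) -
        ((y : ℝ) - mz x) * PP f a (zz E x)| ≤ 2 ^ (U + 1 + 1) * (x / Real.log x ^ (U + 1))) :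
    |NN f k x ((PX (TT k x)).restrict a) - PP f a (zz E x) / V (zz E x) ^ g * ∑ n ∈ Ioc (mz x) x, hh f n| ≤
      C0 g k U * (x / Real.log x ^ U) := by
  have hL := G.L1
  set L : ℝ := Real.log x with hLd
  have hL0 : 0 < L := by linarith
  have hL1 : 1 ≤ L := by linarith
  have hx0 : (0 : ℝ) ≤ x := Nat.cast_nonneg _
  have hg0 : (0 : ℝ) ≤ g := Nat.cast_nonneg _
  have hk0 : (0 : ℝ) ≤ k := Nat.cast_nonneg _
  have hLU : 0 < L ^ U := by positivity
  have hz0 : (0 : ℝ) < zz E x := by exact_mod_cast G.z1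
  set z := zz E x with hz
  have hVz := V_pos z
  set I : ℝ := (1 / V z) ^ g with hI
  have hI0 : 0 ≤ I := by positivity
  set M : ℝ := ∑ n ∈ @Finset.filter ℕ (fun n => ∀ p ∈ pz z, ¬ Hit f a p n) (Classical.decPred _) (Ioc (mz x) x),
        hh f n with hM
  set H : ℝ := ∑ n ∈ Ioc (mz x) x, hh f n with hH
  -- 1 / z
  have hzinv : 1 / (z : ℝ) ≤ 2 / L ^ (U + 1) := by
    have h1 := G.zlow
    have h2 : L ^ (U + 1) ≤ L ^ E := pow_le_pow_right₀ hL1 hE
    rw [div_le_div_iff₀ hz0 (by positivity)]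
    linarith
  have hpowU : L ^ (U + 1) = L ^ U * L := pow_succ _ _
  have hle1 : 1 / L ^ (U + 1) ≤ 1 / L ^ U := one_div_le_one_div_of_le hLU (by rw [hpowU]; nlinarith)
  -- the error of the weights
  have hδ : ∀ u : ℝ, |u| = 1 / L ^ (U + 2) → |u| * g * TT k x + g * g ^ 2 * (2 * TT k x) / z + g ^ 2 * (2 / z) +
          L * (g * (2 / z)) ≤ (g * (k + 1) + 4 * (g * g ^ 2) * (k + 1) + 4 * g ^ 2 + 4 * g) * (1 / L ^ U) := by
    intro u hu
    have hT : TT k x = (k + 1) * L := rfl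
    have t1 : |u| * g * TT k x ≤ g * (k + 1) * (1 / L ^ U) := by
      rw [hu, hT]
      have : 1 / L ^ (U + 2) * g * ((k + 1) * L) = g * (k + 1) * (1 / L ^ (U + 1)) := by
        rw [show L ^ (U + 2) = L ^ (U + 1) * L by ring]
        field_simp
      rw [this]
      exact mul_le_mul_of_nonneg_left hle1 (by positivity)
    have t2 : g * g ^ 2 * (2 * TT k x) / (z : ℝ) ≤ 4 * (g * g ^ 2) * (k + 1) * (1 / L ^ U) := by
      have e1 : g * g ^ 2 * (2 * TT k x) / (z : ℝ) = g * g ^ 2 * (2 * ((k + 1) * L)) * (1 / z) := by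
        rw [hT]; ring
      rw [e1]
      calc (g : ℝ) * g ^ 2 * (2 * ((k + 1) * L)) * (1 / z) ≤ g * g ^ 2 * (2 * ((k + 1) * L)) * (2 / L ^ (U + 1)) :=
            mul_le_mul_of_nonneg_left hzinv (by positivity)
        _ = 4 * (g * g ^ 2) * (k + 1) * (1 / L ^ U) := by rw [hpowU]; field_simp; ring
    have t3 : (g : ℝ) ^ 2 * (2 / z) ≤ 4 * g ^ 2 * (1 / L ^ U) := by
      calc (g : ℝ) ^ 2 * (2 / z) = 2 * g ^ 2 * (1 / z) := by ring
        _ ≤ 2 * g ^ 2 * (2 / L ^ (U + 1)) := mul_le_mul_of_nonneg_left hzinv (by positivity)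
        _ = 4 * g ^ 2 * (1 / L ^ (U + 1)) := by ring
        _ ≤ 4 * g ^ 2 * (1 / L ^ U) := mul_le_mul_of_nonneg_left hle1 (by positivity)
    have t4 : L * (g * (2 / z)) ≤ 4 * g * (1 / L ^ U) := by
      calc L * (g * (2 / z)) = 2 * g * L * (1 / z) := by ring
        _ ≤ 2 * g * L * (2 / L ^ (U + 1)) := mul_le_mul_of_nonneg_left hzinv (by positivity)
        _ = 4 * g * (1 / L ^ U) := by rw [hpowU]; field_simp; ring
    linarith
  have hu1 : 1 / L ^ (U + 2) ≤ 1 := by
    rw [div_le_one (by positivity)]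
    exact one_le_pow₀ hL1
  have hup : |1 / L ^ (U + 2)| = 1 / L ^ (U + 2) := abs_of_nonneg (by positivity)
  have hun : |-(1 / L ^ (U + 2))| = 1 / L ^ (U + 2) := by rw [abs_neg, hup]
  set D : ℝ := (g * (k + 1) + 4 * (g * g ^ 2) * (k + 1) + 4 * g ^ 2 + 4 * g) with hD
  have w1 := (WW_closeG G (u := 1 / L ^ (U + 2)) (by rw [hup]; exact hu1) a).trans
    (mul_le_mul_of_nonneg_left (hδ _ hup) hx0)
  have w2 := (WW_closeG G (u := -(1 / L ^ (U + 2))) (by rw [hun]; exact hu1) a).trans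
    (mul_le_mul_of_nonneg_left (hδ _ hun) hx0)
  have hxD : x * (D * (1 / L ^ U)) = D * (x / L ^ U) := by ring
  rw [hxD] at w1 w2
  -- summation by parts
  have hab : |M - PP f a z * H| ≤ 2 ^ (U + 1 + 1) * (x / L ^ (U + 1)) := by
    have h1 := abel (fun n => if n ≤ x then hh f n else 0) (mz x) (fun n hn => (hhG_facts G n hn).1)
      (fun n hn => (hhG_facts G n hn).2.2)
      (fun n => ∀ p ∈ pz z, ¬ Hit f a p n) (PP f a z) (2 ^ (U + 1 + 1) * (x / L ^ (U + 1))) x G.mzx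
      (fun y h1 h2 => by
        refine le_trans (le_of_eq ?_) (hcount y h1 h2)
        congr)
    have e1 : ∑ n ∈ Ioc (mz x) x, (if n ≤ x then hh f n else 0) = H := by
      rw [hH]
      refine sum_congr rfl fun n hn => ?_
      rw [mem_Ioc] at hn
      rw [if_pos hn.2]
    rw [e1] at h1
    have e2 : ∀ inst : DecidablePred (fun n => ∀ p ∈ pz z, ¬ Hit f a p n),
        (∑ n ∈ @Finset.filter ℕ (fun n => ∀ p ∈ pz z, ¬ Hit f a p n) inst (Ioc (mz x) x),
          (if n ≤ x then hh f n else 0)) = M := by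
      intro inst
      rw [hM]
      refine sum_congr ?_ fun n hn => ?_
      · ext n
        rw [mf', mf']
      · have := (mf'.mp hn).1
        rw [mem_Ioc] at this
        rw [if_pos this.2]
    rw [e2] at h1
    refine h1.trans ?_
    exact mul_le_of_le_one_right (by positivity) (hhG_facts G (mz x) le_rfl).2.1
  have hab2 : |I * M - I * (PP f a z * H)| ≤ 2 ^ (U + 2) * (x / L ^ U) := by
    rw [← mul_sub, abs_mul, abs_of_nonneg hI0]
    calc I * |M - PP f a z * H| ≤ L * (2 ^ (U + 1 + 1) * (x / L ^ (U + 1))) :=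
          mul_le_mul G.invV hab (abs_nonneg _) hL0.le
      _ = 2 ^ (U + 2) * (x / L ^ U) := by rw [hpowU]; field_simp
  have hSS : PP f a z / V z ^ g * H = I * (PP f a z * H) := by
    rw [hI, one_div, inv_pow]; ring
  rw [hSS]
  have hC : C0 g k U * (x / L ^ U) = x / L ^ U + 2 ^ (U + 2) * (x / L ^ U) + D * (x / L ^ U) := by
    unfold C0; rw [← hD]; ring
  rw [hC]
  rw [abs_le] at w1 w2 hab2 ⊢
  constructor <;> linarith

theorem R_iffG {g : ℕ} {f : Fin g → ℤ[X]} {k E x : ℕ} (G : GoodG f k E x) (a : (p : Nat.Primes) → ZMod (p : ℕ))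
    {n : ℕ} (hn1 : mz x < n) (hn2 : n ≤ x) : AllR f a n ↔
      ∀ p : {p // p ∈ PX (TT k x)}, ((PX (TT k x)).restrict a) p ∉ Ph f (p : Nat.Primes) n := by
  obtain ⟨h8, h2, -, -⟩ := G.sys n hn1.le hn2
  constructor
  · intro h p hmem
    unfold Ph at hmem
    rw [Finset.mem_image] at hmem
    obtain ⟨i, hi, hia⟩ := hmem
    unfold rel at hi
    have hi2 := (Finset.mem_filter.mp hi).2
    obtain ⟨r, hr, hreq⟩ := h i
    obtain ⟨-, hr2⟩ := hr
    have hlam : lam f i n = Real.log r := by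
      unfold lam
      rw [← hreq, Int.cast_natCast]
    rw [hlam] at hi2
    apply hr2 (p : Nat.Primes) hi2
    rw [← hreq, Int.cast_natCast] at hia
    exact hia
  · intro h i
    have h8i := h8 i
    have hto : (((f i).eval (n : ℤ)).toNat : ℤ) = (f i).eval (n : ℤ) := Int.toNat_of_nonneg (by linarith)
    refine ⟨((f i).eval (n : ℤ)).toNat, ⟨?_, ?_⟩, hto⟩
    · have e1 : Real.exp 2 ≤ 8 := by
        have : Real.exp 2 = Real.exp 1 * Real.exp 1 := by rw [← Real.exp_add]; norm_num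
        rw [this]
        have := Real.exp_one_lt_d9
        have := Real.exp_pos 1
        nlinarith
      refine e1.trans ?_
      have : 8 ≤ ((f i).eval (n : ℤ)).toNat := by omega
      exact_mod_cast this
    · intro p hp heq
      have hlam : lam f i n = Real.log (((f i).eval (n : ℤ)).toNat : ℕ) := by
        unfold lam
        rw [← Int.cast_natCast (R := ℝ), hto]
      rw [← hlam] at hp
      have hmem : p ∈ PX (TT k x) := by
        rw [mem_PX]
        exact hp.trans (mul_le_mul_of_nonneg_left (h2 i).2.1 (V_nonneg _))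
      refine h ⟨p, hmem⟩ ?_
      unfold Ph
      rw [Finset.mem_image]
      refine ⟨i, ?_, ?_⟩
      · unfold rel
        rw [Finset.mem_filter]
        exact ⟨Finset.mem_univ _, hp⟩
      · rw [← hto, Int.cast_natCast]
        exact heq

theorem law_badG {g : ℕ} (f : Fin g → ℤ[X]) (k : ℕ) (hk1 : 1 ≤ k) (hd : ∀ i, 0 < (f i).natDegree)
    (hl : ∀ i, (f i).leadingCoeff = 1 ∨ (f i).leadingCoeff = -1) (hk : ∑ i, (f i).natDegree ≤ k) (U E : ℕ) (hE : 2 * U + 5 ≤ E)
    {σ : ℝ} (hσ : σ = 1 ∨ σ = -1) {x : ℕ} (hL : 4 * k + 2 * g + 2 ≤ Real.log x) (hxE : Real.log x ^ E ≤ (x : ℝ))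
    (hx2 : 2 ≤ x) :
    law {a | x / Real.log x ^ U ≤ σ * (NN f k x ((PX (TT k x)).restrict a) -
      WW f k E x (σ * (1 / Real.log x ^ (U + 2))) ((PX (TT k x)).restrict a))} ≤
        ENNReal.ofReal (1 * (1 / (x : ℝ) ^ 2)) := by
  classical
  have hk0 : (1 : ℝ) ≤ k := by exact_mod_cast hk1
  set L : ℝ := Real.log x with hLdef
  have hx0 : (0 : ℝ) < x := by exact_mod_cast (by omega : 0 < x)
  have hg0 : (0 : ℝ) ≤ g := Nat.cast_nonneg _
  have hL1 : 1 ≤ L := by linarith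
  have hL0 : 0 < L := by linarith
  have hLE : L ≤ L ^ E := le_self_pow₀ hL1 (by omega)
  set v : ℝ := L ^ E / (2 * k * x * L ^ (U + 2)) with hv
  set d : ℝ := 2 * k * x / L ^ E with hdd
  have hv0 : 0 ≤ v := by positivity
  have hd0 : 0 ≤ d := by positivity
  have hvd : v * d = 1 / L ^ (U + 2) := by
    rw [hv, hdd]; field_simp
  have hvd1 : v * d ≤ 1 := by
    rw [hvd, div_le_one (by positivity)]
    exact one_le_pow₀ hL1
  have hvy : 2 * L ≤ v * (x / L ^ U) := by
    have e1 : v * (x / L ^ U) = L ^ E / (2 * k * L ^ (2 * U + 2)) := by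
      rw [hv]; field_simp; ring
    rw [e1, le_div_iff₀ (by positivity)]
    have e2 : L ^ (2 * U + 5) ≤ L ^ E := pow_le_pow_right₀ hL1 hE
    refine le_trans ?_ e2
    have e3 : L ^ (2 * U + 5) = L ^ (2 * U + 2) * (L * (L * L)) := by ring
    rw [e3]
    have h4 : 4 * k ≤ L := by linarith
    have h5 : 0 < L ^ (2 * U + 2) := by positivity
    have h6 : 2 * L * (2 * k) ≤ L * (L * L) := by
      have : 4 * k * 1 ≤ L * L := by
        apply mul_le_mul h4 hL1 (by norm_num) hL0.le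
      nlinarith
    calc 2 * L * (2 * k * L ^ (2 * U + 2)) = L ^ (2 * U + 2) * (2 * L * (2 * k)) := by ring
      _ ≤ _ := mul_le_mul_of_nonneg_left h6 h5.le
  have hKbig : ∀ p ∈ KK k E x, L ^ E < (((p : Nat.Primes) : ℕ) : ℝ) := by
    intro p hp
    have h1 : zz E x < ((p : Nat.Primes) : ℕ) := (Finset.mem_filter.mp hp).2
    unfold zz at h1
    exact (Nat.floor_lt (by positivity)).mp h1
  have h := tailW (Ioc (mz x) x) (fun (p : {p // p ∈ PX (TT k x)}) n => Ph f (p : Nat.Primes) n) (K0 k E x)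
    (KK k E x) (disjoint_filter_filter_not _ _ _) hσ hv0 hd0 hvd1 (fun p hp r => by
      have hpE := hKbig p hp
      have hlc : ∀ i, ¬ (((p : Nat.Primes) : ℕ) : ℤ) ∣ (f i).leadingCoeff := by
        intro i hdvd
        have h1 : (((p : Nat.Primes) : ℕ) : ℤ) ∣ 1 := by
          rcases hl i with h | h
          · rwa [h] at hdvd
          · rw [h] at hdvd
            exact (dvd_neg.mp hdvd)
        have h2 : ((p : Nat.Primes) : ℕ) ∣ 1 := by exact_mod_cast h1
        exact (p : Nat.Primes).2.one_lt.ne' (Nat.dvd_one.mp h2)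
      have h1 := fiber_Ph f k hd hk (p : Nat.Primes) hlc x r (Ioc (mz x) x) (by
        intro n hn
        rw [mem_Ioc] at hn
        rw [mem_Icc]
        omega)
      have h2 : (((Ioc (mz x) x).filter (fun n => r ∈ Ph f (p : Nat.Primes) n)).card : ℝ) ≤
          ((x / ((p : Nat.Primes) : ℕ) + 1) * k : ℕ) := by exact_mod_cast h1
      refine h2.trans ?_
      push_cast
      have h3 : ((x / ((p : Nat.Primes) : ℕ) : ℕ) : ℝ) ≤ x / (((p : Nat.Primes) : ℕ) : ℝ) := Nat.cast_div_le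
      have h4 : x / (((p : Nat.Primes) : ℕ) : ℝ) ≤ x / L ^ E :=
        div_le_div_of_nonneg_left hx0.le (by positivity) hpE.le
      have h5 : 1 ≤ x / L ^ E := by
        rw [le_div_iff₀ (by positivity), one_mul]
        exact hxE
      calc (((x / ((p : Nat.Primes) : ℕ) : ℕ) : ℝ) + 1) * k ≤ (2 * (x / L ^ E)) * k := by
            apply mul_le_mul_of_nonneg_right _ (by linarith)
            linarith
        _ = d := by rw [hdd]; ring)
    (fun p hp n => by
      rw [ZMod.card]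
      have hpE := hKbig p hp
      have h1 : ((Ph f (p : Nat.Primes) n).card : ℝ) ≤ g := by
        exact_mod_cast (Ph_card_le f (p : Nat.Primes) n).trans (rel_card_le f _ n)
      linarith)
    (fun a => x / L ^ U ≤ σ * (NN f k x a - WW f k E x (σ * (1 / L ^ (U + 2))) a))
    (fun a ha => by
      refine ha.trans (le_of_eq ?_)
      unfold NN WW
      have hun : KK k E x ∪ K0 k E x = univ := filter_union_filter_not_eq _ _
      rw [hun, hvd]
      simp only [ZMod.card])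
    (y := x / L ^ U)
  have h2 : {a | x / L ^ U ≤ σ * (NN f k x ((PX (TT k x)).restrict a) -
      WW f k E x (σ * (1 / L ^ (U + 2))) ((PX (TT k x)).restrict a))} =
      {a : (p : Nat.Primes) → ZMod (p : ℕ) | (fun a => x / L ^ U ≤ σ * (NN f k x a -
        WW f k E x (σ * (1 / L ^ (U + 2))) a)) ((PX (TT k x)).restrict a)} := rfl
  have h2' := law_cyl (PX (TT k x)) (fun a => x / L ^ U ≤ σ * (NN f k x a -
        WW f k E x (σ * (1 / L ^ (U + 2))) a)) (inst := Classical.decPred _)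
  rw [h2, h2']
  apply ENNReal.ofReal_le_ofReal
  have h3 : Real.exp (-(v * (x / L ^ U))) ≤ 1 * (1 / (x : ℝ) ^ 2) := by
    have h4 : Real.exp (-(v * (x / L ^ U))) ≤ Real.exp (-(2 * L)) := by
      apply Real.exp_le_exp.mpr; linarith
    refine h4.trans (le_of_eq ?_)
    rw [Real.exp_neg, one_mul, one_div]
    congr 1
    rw [hLdef, ← Real.exp_log hx0, Real.log_exp, ← Real.exp_nat_mul]
    norm_num
  refine le_trans (le_of_eq ?_) (h.trans h3)
  congr 1

end Pool.Agent.W2helper64.GB
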