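import Pool.Agent.W2helper64.GB.Sys

set_option autoImplicit false
set_option linter.unusedSectionVars false

/-!
The system `n, N - n`: the conditions of the engine.
-/

namespace Pool.Agent.W2helper64.GB

open Finset Filter Topology Polynomial MeasureTheory Pool.Agent.W2helper64.RS Pool.Agent.W2helper64.RK
open Pool.Agent.W2helper64.BH
open Pool.Agent.H373R2.T7 (pz nuB PerB sys_count nuB_le mem_pz)

theorem log_cross {s M : ℝ} (hs : 1 ≤ s) (hM : s + 1 ≤ M) :
    Real.log s * Real.log (M + 1) ≤ Real.log (s + 1) * Real.log M := by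
  have hs0 : 0 < s := by linarith
  have hM0 : 0 < M := by linarith
  have h1 : Real.log (M + 1) ≤ Real.log M + 1 / M := by
    have h2 : M + 1 = M * (1 + 1 / M) := by field_simp
    rw [h2, Real.log_mul hM0.ne' (by positivity)]
    have := Real.log_le_sub_one_of_pos (show 0 < 1 + 1 / M by positivity)
    linarith
  have h3 : Real.log s + 1 / (s + 1) ≤ Real.log (s + 1) := by
    have h4 : s + 1 = s * ((s + 1) / s) := by field_simp
    have h5 : Real.log (s + 1) = Real.log s + Real.log ((s + 1) / s) := by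
      conv_lhs => rw [h4]
      rw [Real.log_mul hs0.ne' (by positivity)]
    have h6 := Real.one_sub_inv_le_log_of_pos (show 0 < (s + 1) / s by positivity)
    have h7 : 1 - ((s + 1) / s)⁻¹ = 1 / (s + 1) := by field_simp; ring
    rw [h7] at h6
    linarith
  have hls : 0 ≤ Real.log s := Real.log_nonneg hs
  have hlM : Real.log s ≤ Real.log M := Real.log_le_log hs0 (by linarith)
  have h8 : 1 / M ≤ 1 / (s + 1) := one_div_le_one_div_of_le (by linarith) hM
  have h9 : Real.log s * (1 / M) ≤ Real.log M * (1 / (s + 1)) :=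
    mul_le_mul hlM h8 (by positivity) (by linarith)
  calc Real.log s * Real.log (M + 1) ≤ Real.log s * (Real.log M + 1 / M) := mul_le_mul_of_nonneg_left h1 hls
    _ = Real.log s * Real.log M + Real.log s * (1 / M) := by ring
    _ ≤ Real.log s * Real.log M + Real.log M * (1 / (s + 1)) := by linarith
    _ = (Real.log s + 1 / (s + 1)) * Real.log M := by ring
    _ ≤ _ := mul_le_mul_of_nonneg_right h3 (by linarith)

theorem lam0 (N n : ℕ) : lam (gN N) 0 n = Real.log n := by
  unfold lam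
  rw [gN0, Int.cast_natCast]

theorem lam1 (N n : ℕ) : lam (gN N) 1 n = Real.log ((N : ℝ) - n) := by
  unfold lam
  rw [gN1]
  push_cast
  rfl

theorem hh_gN (N n : ℕ) : hh (gN N) n = 1 / Real.log n * (1 / Real.log ((N : ℝ) - n)) := by
  unfold hh
  rw [Fin.prod_univ_two, lam0, lam1]

theorem ev_goodG (E : ℕ) (hE : 1 ≤ E) : ∀ᶠ x : ℕ in atTop, GoodG (gN (2 * x + 2)) 2 E x := by
  filter_upwards [ev_log 32, eventually_ge_atTop 100, ev_invV E 2] with x hL hx4 hV2
  obtain ⟨hm1, hm2, hm3⟩ := mz_facts (by omega : 4 ≤ x)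
  have hx0 : (0 : ℝ) < x := by exact_mod_cast (by omega : 0 < x)
  have hx100 : (100 : ℝ) ≤ x := by exact_mod_cast hx4
  set L : ℝ := Real.log x with hLd
  have hL1 : 1 ≤ L := by linarith
  have hL0 : 0 < L := by linarith
  have hLE : L ≤ L ^ E := le_self_pow₀ hL1 (by omega)
  have hT : TT 2 x = 3 * L := by
    unfold TT
    push_cast
    ring
  have hVz := V_pos (zz E x)
  have hinv : 1 / V (zz E x) ≤ L / 4 := by
    have h1 : (1 / V (zz E x)) ^ 2 ≤ (L / 4) ^ 2 := by
      refine hV2.trans ?_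
      have : 16 * L ≤ L * L := mul_le_mul_of_nonneg_right (by linarith) hL0.le
      nlinarith
    exact le_of_sq_le_sq h1 (by positivity)
  have hmz10 : 10 ≤ mz x := by
    unfold mz
    have : 10 ≤ Nat.sqrt x := Nat.le_sqrt.mpr (by omega)
    omega
  have hNL : Real.log (2 * x + 2 : ℝ) ≤ 3 * L := by
    have h1 : (2 * x + 2 : ℝ) ≤ x * x := by nlinarith
    refine (Real.log_le_log (by positivity) h1).trans ?_
    rw [Real.log_mul hx0.ne' hx0.ne']
    linarith
  refine ⟨by linarith, ?_, ?_, ?_, hV2, ?_, hm1, fun n h1 h2 => ?_, fun n h1 h2 => ?_⟩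
  · unfold zz
    apply Nat.le_floor
    push_cast
    linarith
  · unfold zz
    apply Nat.le_floor
    push_cast
    linarith
  · have h1 : L ^ E < (⌊L ^ E⌋₊ : ℝ) + 1 := Nat.lt_floor_add_one _
    have h2 : (zz E x : ℝ) = (⌊L ^ E⌋₊ : ℝ) := rfl
    rw [h2]
    linarith
  · rw [hT]; linarith
  · have hnr : (n : ℝ) ≤ x := by exact_mod_cast h2
    have hn10 : (10 : ℝ) ≤ n := by exact_mod_cast hmz10.trans h1
    have hln := hm3 n h1
    have hln2 : Real.log n ≤ L := Real.log_le_log (by linarith) hnr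
    have hNr : (((2 * x + 2 : ℕ) : ℝ)) = 2 * x + 2 := by push_cast; ring
    have hval : (x : ℝ) ≤ ((2 * x + 2 : ℕ) : ℝ) - n := by rw [hNr]; linarith
    have hl1 : L ≤ Real.log (((2 * x + 2 : ℕ) : ℝ) - n) := Real.log_le_log hx0 hval
    have hl2 : Real.log (((2 * x + 2 : ℕ) : ℝ) - n) ≤ 3 * L := by
      refine le_trans (Real.log_le_log (by linarith) ?_) hNL
      rw [hNr]; linarith
    have hkey : ∀ y : ℝ, L / 2 ≤ y → y ≤ 3 * L → 2 ≤ y ∧ y ≤ TT 2 x ∧ 1 ≤ V (zz E x) * y := by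
      intro y h3 h4
      refine ⟨by linarith, by rw [hT]; exact h4, ?_⟩
      have h8 : 1 / V (zz E x) ≤ y := by linarith
      rw [div_le_iff₀ hVz] at h8
      linarith
    have hdiff : ∀ i j : Fin 2, i ≠ j → (gN (2 * x + 2) i).eval (n : ℤ) - (gN (2 * x + 2) j).eval (n : ℤ) = 2 * n - (2 * x + 2) ∨
        (gN (2 * x + 2) i).eval (n : ℤ) - (gN (2 * x + 2) j).eval (n : ℤ) = -(2 * n - (2 * x + 2)) := by
      intro i j hij
      fin_cases i <;> fin_cases j
      · exact absurd rfl hij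
      · left
        show (gN (2 * x + 2) 0).eval (n : ℤ) - (gN (2 * x + 2) 1).eval (n : ℤ) = _
        rw [gN0, gN1]; push_cast; ring
      · right
        show (gN (2 * x + 2) 1).eval (n : ℤ) - (gN (2 * x + 2) 0).eval (n : ℤ) = _
        rw [gN0, gN1]; push_cast; ring
      · exact absurd rfl hij
    refine ⟨fun i => ?_, fun i => ?_, fun i j hij h => ?_, fun i j hij => ?_⟩
    · fin_cases i
      · show 8 ≤ (gN (2 * x + 2) 0).eval (n : ℤ)
        rw [gN0]; omega
      · show 8 ≤ (gN (2 * x + 2) 1).eval (n : ℤ)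
        rw [gN1]; push_cast; omega
    · fin_cases i
      · show 2 ≤ lam (gN (2 * x + 2)) 0 n ∧ lam (gN (2 * x + 2)) 0 n ≤ TT 2 x ∧ 1 ≤ V (zz E x) * lam (gN (2 * x + 2)) 0 n
        rw [lam0]
        exact hkey _ hln (by linarith)
      · show 2 ≤ lam (gN (2 * x + 2)) 1 n ∧ lam (gN (2 * x + 2)) 1 n ≤ TT 2 x ∧ 1 ≤ V (zz E x) * lam (gN (2 * x + 2)) 1 n
        rw [lam1]
        exact hkey _ (by linarith) hl2
    · rcases hdiff i j hij with h3 | h3 <;> rw [h3] at h <;> omega
    · rw [hT]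
      have habs : |((((gN (2 * x + 2) i).eval (n : ℤ) - (gN (2 * x + 2) j).eval (n : ℤ) : ℤ)) : ℝ)| = 2 * x + 2 - 2 * n := by
        rcases hdiff i j hij with h3 | h3
        · rw [h3]; push_cast
          rw [abs_of_nonpos (by linarith)]; ring
        · rw [h3]; push_cast
          rw [abs_of_nonneg (by linarith)]; ring
      rw [habs]
      refine le_trans (Real.log_le_log (by linarith) ?_) hNL
      linarith
  · have hnr : (n : ℝ) + 1 ≤ x := by exact_mod_cast h2
    have hn10 : (10 : ℝ) ≤ n := by exact_mod_cast hmz10.trans h1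
    have hNr : (((2 * x + 2 : ℕ) : ℝ)) = 2 * x + 2 := by push_cast; ring
    rw [hh_gN, hh_gN, one_div_mul_one_div, one_div_mul_one_div]
    have h3 := log_cross (s := n) (M := 2 * x + 1 - n) (by linarith) (by linarith)
    have e1 : ((2 * x + 2 : ℕ) : ℝ) - n = 2 * x + 1 - n + 1 := by rw [hNr]; ring
    have e2 : ((2 * x + 2 : ℕ) : ℝ) - ((n + 1 : ℕ) : ℝ) = 2 * x + 1 - n := by
      rw [hNr]; push_cast; ring
    rw [e1, e2]
    push_cast
    apply one_div_le_one_div_of_le _ h3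
    apply mul_pos (Real.log_pos (by linarith)) (Real.log_pos (by linarith))

/-- concentration -/
theorem ae_concG (U E : ℕ) (hE : 2 * U + 5 ≤ E) :
    ∀ᵐ a ∂law, ∀ᶠ x : ℕ in atTop,
      NN (gN (2 * x + 2)) 2 x ((PX (TT 2 x)).restrict a) ≤
        WW (gN (2 * x + 2)) 2 E x (1 / Real.log x ^ (U + 2)) ((PX (TT 2 x)).restrict a) + x / Real.log x ^ U ∧
      WW (gN (2 * x + 2)) 2 E x (-(1 / Real.log x ^ (U + 2))) ((PX (TT 2 x)).restrict a) - x / Real.log x ^ U ≤
        NN (gN (2 * x + 2)) 2 x ((PX (TT 2 x)).restrict a) := by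
  have hb : ∀ σ : ℝ, (σ = 1 ∨ σ = -1) → ∀ᶠ x : ℕ in atTop,
      law {a | x / Real.log x ^ U ≤ σ * (NN (gN (2 * x + 2)) 2 x ((PX (TT 2 x)).restrict a) -
      WW (gN (2 * x + 2)) 2 E x (σ * (1 / Real.log x ^ (U + 2))) ((PX (TT 2 x)).restrict a))} ≤
        ENNReal.ofReal (1 * (1 / (x : ℝ) ^ 2)) := by
    intro σ hσ
    filter_upwards [ev_log (4 * (2 : ℕ) + 2 * (2 : ℕ) + 2), ev_pow E, eventually_ge_atTop 2] with x h1 h2 h3
    exact law_badG (gN (2 * x + 2)) 2 (by norm_num) (fun i => by rw [gN_deg]; norm_num) (gN_lead _) (gN_sum _)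
      U E hE hσ h1 h2 h3
  have h1 := bc _ 1 (by norm_num) (hb 1 (Or.inl rfl))
  have h2 := bc _ 1 (by norm_num) (hb (-1) (Or.inr rfl))
  filter_upwards [h1, h2] with a h3 h4
  filter_upwards [h3, h4] with x h5 h6
  simp only [Set.mem_setOf_eq, not_le, one_mul, neg_mul] at h5 h6
  constructor <;> linarith

/-- the formula with the truncated product -/
theorem ae_trunc (U E : ℕ) (hE : 2 * U + 5 ≤ E) : ∀ᵐ a ∂law, ∀ᶠ x : ℕ in atTop,
    |NN (gN (2 * x + 2)) 2 x ((PX (TT 2 x)).restrict a) -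
      PP (gN (2 * x + 2)) a (zz E x) / V (zz E x) ^ 2 * ∑ n ∈ Ioc (mz x) x, hh (gN (2 * x + 2)) n| ≤
      C0 2 2 U * (x / Real.log x ^ U) := by
  filter_upwards [ae_concG U E hE] with a ha
  filter_upwards [ha, ev_goodG E (by omega), count_phaseG E (U + 1)] with x h1 G h3
  exact NN_closeG G (by omega) a h1.1 h1.2 (fun y hy1 hy2 => h3 (2 * x + 2) a y hy1 hy2)

end Pool.Agent.W2helper64.GB
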