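import Pool.Agent.W2helper64.GB.Tail

set_option autoImplicit false
set_option linter.unusedSectionVars false

/-!
The singular series of the system `n, N - n`: convergence and the distance from the truncated product.
-/

namespace Pool.Agent.W2helper64.GB

open Finset Filter Topology Polynomial MeasureTheory Pool.Agent.W2helper64.RS Pool.Agent.W2helper64.RK
open Pool.Agent.W2helper64.BH
open Pool.Agent.H373R2.T7 (pz nuB PerB sys_count nuB_le mem_pz)

/-- the partial products of the singular series -/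
noncomputable def SN (N : ℕ) (a : (p : Nat.Primes) → ZMod (p : ℕ)) (z : ℕ) : ℝ := ∏ p ∈ Pr 0 z, FF (gN N) a (p : ℕ)

theorem SN_eq (N : ℕ) (a : (p : Nat.Primes) → ZMod (p : ℕ)) (z : ℕ) : PP (gN N) a z / V z ^ 2 = SN N a z :=
  PP_div _ _ _

theorem Pr_split {y z M : ℕ} (h1 : y ≤ z) (h2 : z ≤ M) (G : Nat.Primes → ℝ) :
    ∏ p ∈ Pr y M, G p = (∏ p ∈ Pr y z, G p) * ∏ p ∈ Pr z M, G p := by
  classical
  rw [← prod_union]
  · refine prod_congr ?_ fun _ _ => rfl
    ext p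
    rw [Finset.mem_union, mem_Pr, mem_Pr, mem_Pr]
    omega
  · rw [Finset.disjoint_left]
    intro p h3 h4
    rw [mem_Pr] at h3 h4
    omega

theorem one_sub_sum_le {ι : Type} (K : Finset ι) (u : ι → ℝ) (h0 : ∀ i ∈ K, 0 ≤ u i) (h1 : ∀ i ∈ K, u i ≤ 1) :
    1 - ∑ i ∈ K, u i ≤ ∏ i ∈ K, (1 - u i) ∧ ∏ i ∈ K, (1 - u i) ≤ 1 := by
  classical
  induction K using Finset.induction_on with
  | empty => simp
  | insert i K hi ih =>
    obtain ⟨ih1, ih2⟩ := ih (fun j hj => h0 j (mem_insert_of_mem hj)) (fun j hj => h1 j (mem_insert_of_mem hj))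
    have hu0 := h0 i (mem_insert_self _ _)
    have hu1 := h1 i (mem_insert_self _ _)
    have hp : 0 ≤ ∏ j ∈ K, (1 - u j) := prod_nonneg fun j hj => by
      have := h1 j (mem_insert_of_mem hj)
      linarith
    rw [sum_insert hi, prod_insert hi]
    constructor
    · nlinarith
    · nlinarith

theorem prodA_ge (N z M : ℕ) (hz : 2 ≤ z) (a : (p : Nat.Primes) → ZMod (p : ℕ)) :
    1 - 8 / (z : ℝ) ≤ ∏ p ∈ Pr z M, fA N a p := by
  classical
  have hz0 : (0 : ℝ) < z := by exact_mod_cast (by omega : 0 < z)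
  have h1 : ∀ p ∈ Pr z M, 1 - 4 * (1 / ((p : ℕ) : ℝ) ^ 2) ≤ fA N a p ∧ 0 ≤ 4 * (1 / ((p : ℕ) : ℝ) ^ 2) ∧
      4 * (1 / ((p : ℕ) : ℝ) ^ 2) ≤ 1 := by
    intro p hp
    rw [mem_Pr] at hp
    have h2 := (fA_facts N a p (by omega)).1
    have hp3 : (3 : ℝ) ≤ ((p : ℕ) : ℝ) := by exact_mod_cast (by omega : 3 ≤ (p : ℕ))
    set q : ℝ := ((p : ℕ) : ℝ)
    have h3 : 1 / (q - 1) ^ 2 ≤ 4 * (1 / q ^ 2) := by
      rw [mul_one_div, div_le_div_iff₀ (by nlinarith) (by positivity)]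
      nlinarith
    refine ⟨by linarith, by positivity, ?_⟩
    rw [mul_one_div, div_le_one (by positivity)]
    nlinarith
  have h4 : ∏ p ∈ Pr z M, (1 - 4 * (1 / ((p : ℕ) : ℝ) ^ 2)) ≤ ∏ p ∈ Pr z M, fA N a p :=
    prod_le_prod (fun p hp => by linarith [(h1 p hp).2.2]) fun p hp => (h1 p hp).1
  refine le_trans ?_ h4
  have h5 : 1 - ∑ p ∈ Pr z M, 4 * (1 / ((p : ℕ) : ℝ) ^ 2) ≤ ∏ p ∈ Pr z M, (1 - 4 * (1 / ((p : ℕ) : ℝ) ^ 2)) :=
    (one_sub_sum_le _ _ (fun p hp => (h1 p hp).2.1) (fun p hp => (h1 p hp).2.2)).1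
  refine le_trans ?_ h5
  have h6 := sq_sum_le (F := Pr z M) (z := z) (by omega) univ (fun p _ => (mem_Pr.mp p.2).1)
  have h7 : ∑ p ∈ Pr z M, 4 * (1 / ((p : ℕ) : ℝ) ^ 2) = 4 * ∑ p : {x // x ∈ Pr z M}, (1 : ℝ) / (((p : Nat.Primes) : ℕ) : ℝ) ^ 2 := by
    rw [← mul_sum, ← Finset.sum_coe_sort (Pr z M) (fun p : Nat.Primes => (1 : ℝ) / ((p : ℕ) : ℝ) ^ 2)]
  rw [h7]
  have h8 : (8 : ℝ) / z = 4 * (2 / z) := by ring
  rw [h8]
  linarith

theorem prodA_le (N z M : ℕ) (hz : 2 ≤ z) (a : (p : Nat.Primes) → ZMod (p : ℕ)) :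
    0 ≤ ∏ p ∈ Pr z M, fA N a p ∧ ∏ p ∈ Pr z M, fA N a p ≤ 1 := by
  have h1 : ∀ p ∈ Pr z M, 0 ≤ fA N a p ∧ fA N a p ≤ 1 := by
    intro p hp
    rw [mem_Pr] at hp
    obtain ⟨h2, h3⟩ := fA_facts N a p (by omega)
    have hp3 : (3 : ℝ) ≤ ((p : ℕ) : ℝ) := by exact_mod_cast (by omega : 3 ≤ (p : ℕ))
    have h4 : 1 / (((p : ℕ) : ℝ) - 1) ^ 2 ≤ 1 := by
      rw [div_le_one (by nlinarith)]
      nlinarith
    exact ⟨by linarith, h3⟩
  exact ⟨prod_nonneg fun p hp => (h1 p hp).1, prod_le_one (fun p hp => (h1 p hp).1) fun p hp => (h1 p hp).2⟩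

/-- the product over the odd primes up to `z` is at least one half -/
theorem prodA_half (N : ℕ) (a : (p : Nat.Primes) → ZMod (p : ℕ)) (z : ℕ) (hz : 2 ≤ z) :
    ((z : ℝ)) / (2 * ((z : ℝ) - 1)) ≤ ∏ p ∈ Pr 2 z, fA N a p := by
  classical
  induction z, hz using Nat.le_induction with
  | base =>
    have : Pr 2 2 = ∅ := by
      ext p
      rw [mem_Pr]
      constructor
      · intro h; omega
      · intro h; exact absurd h (Finset.notMem_empty _)
    rw [this, prod_empty]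
    norm_num
  | succ z hz ih =>
    have hz2 : (2 : ℝ) ≤ z := by exact_mod_cast hz
    have e0 : ((z + 1 : ℕ) : ℝ) / (2 * (((z + 1 : ℕ) : ℝ) - 1)) = (z : ℝ) / (2 * ((z : ℝ) - 1)) * (1 - 1 / (z : ℝ) ^ 2) := by
      have h1 : (z : ℝ) ≠ 0 := by linarith
      have h2 : (z : ℝ) - 1 ≠ 0 := by linarith
      push_cast
      have h3 : (z : ℝ) + 1 - 1 = z := by ring
      rw [h3]
      field_simp
      ring
    have hfac : 0 ≤ 1 - 1 / (z : ℝ) ^ 2 := by
      have : 1 / (z : ℝ) ^ 2 ≤ 1 := by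
        rw [div_le_one (by positivity)]
        nlinarith
      linarith
    have hpos : 0 ≤ (z : ℝ) / (2 * ((z : ℝ) - 1)) := by
      have : 0 < (z : ℝ) - 1 := by linarith
      positivity
    rw [Pr_split hz (Nat.le_succ z), e0]
    refine mul_le_mul ih ?_ hfac (prodA_le N 2 z le_rfl a).1
    by_cases hp : (z + 1).Prime
    · obtain ⟨q, hq⟩ : ∃ q : Nat.Primes, (q : ℕ) = z + 1 := ⟨⟨z + 1, hp⟩, rfl⟩
      have : Pr z (z + 1) = {q} := by
        ext p
        rw [mem_Pr, mem_singleton]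
        constructor
        · intro h
          exact Subtype.ext (by omega)
        · rintro rfl
          omega
      rw [this, prod_singleton]
      have h := (fA_facts N a q (by omega)).1
      have e1 : (((q : ℕ) : ℝ) - 1) = z := by
        rw [hq]
        push_cast; ring
      rw [e1] at h
      exact h
    · have : Pr z (z + 1) = ∅ := by
        ext p
        rw [mem_Pr]
        constructor
        · intro h
          have : (p : ℕ) = z + 1 := by omega
          exact absurd (this ▸ p.2) hp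
        · intro h; exact absurd h (Finset.notMem_empty _)
      rw [this, prod_empty]
      have : 0 ≤ 1 / (z : ℝ) ^ 2 := by positivity
      linarith

/-- the prime two -/
def pt : Nat.Primes := ⟨2, Nat.prime_two⟩

theorem pt_val : (pt : ℕ) = 2 := rfl

theorem fB_two {N : ℕ} (hN : Even N) (a : (p : Nat.Primes) → ZMod (p : ℕ)) :
    fA N a pt = 1 ∧ fB N a pt = 2 := by
  have h : 2 * a pt = ((N : ℕ) : ZMod (pt : ℕ)) := by
    have h1 : ((N : ℕ) : ZMod (pt : ℕ)) = 0 := by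
      rw [ZMod.natCast_eq_zero_iff, pt_val]
      exact hN.two_dvd
    have h2 : (2 : ZMod (pt : ℕ)) = 0 := by
      have : ((2 : ℕ) : ZMod (pt : ℕ)) = 0 := (ZMod.natCast_eq_zero_iff _ _).mpr dvd_rfl
      exact_mod_cast this
    rw [h1, h2, zero_mul]
  unfold fA fB
  rw [if_pos h, if_pos h]
  refine ⟨rfl, ?_⟩
  rw [pt_val]
  norm_num

theorem Pr_two : Pr 0 2 = {pt} := by
  ext p
  rw [mem_Pr, mem_singleton]
  have := p.2.two_le
  constructor
  · intro h
    exact Subtype.ext (by rw [pt_val]; omega)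
  · rintro rfl
    rw [pt_val]
    exact ⟨by norm_num, le_rfl⟩

theorem SN_split {N : ℕ} (hN : Even N) (a : (p : Nat.Primes) → ZMod (p : ℕ)) {z : ℕ} (hz : 2 ≤ z) :
    SN N a z = 2 * (∏ p ∈ Pr 2 z, fA N a p) * ∏ p ∈ Pr 2 z, fB N a p := by
  unfold SN
  rw [Pr_split (by norm_num) hz, Pr_two, prod_singleton]
  have h1 : ∀ p : Nat.Primes, FF (gN N) a (p : ℕ) = fA N a p * fB N a p := FF_gN N a
  simp only [h1]
  rw [prod_mul_distrib, (fB_two hN a).1, (fB_two hN a).2]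
  ring

/-- convergence of the series and the distance from the partial products -/
theorem series_lim {N : ℕ} (hN : Even N) (a : (p : Nat.Primes) → ZMod (p : ℕ)) {z : ℕ} (hz : 2 ≤ z) {t : ℝ}
    (ht0 : 0 ≤ t) (ht1 : t ≤ 1) (h : ∀ M, Ts N z M a < t) :
    ∃ S : ℝ, 1 ≤ S ∧ Tendsto (fun M => SN N a M) atTop (𝓝 S) ∧
      |SN N a z - S| ≤ SN N a z * (8 / z + 2 * t) := by
  classical
  have hz0 : (0 : ℝ) < z := by exact_mod_cast (by omega : 0 < z)
  -- the part A
  have hAanti : Antitone fun M => ∏ p ∈ Pr 2 (M + 2), fA N a p := by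
    refine antitone_nat_of_succ_le fun M => ?_
    rw [Pr_split (by omega : 2 ≤ M + 2) (by omega : M + 2 ≤ M + 1 + 2)]
    exact mul_le_of_le_one_right (prodA_le N 2 _ le_rfl a).1 (prodA_le N (M + 2) _ (by omega) a).2
  have hAb : BddBelow (Set.range fun M => ∏ p ∈ Pr 2 (M + 2), fA N a p) :=
    ⟨0, by rintro _ ⟨M, rfl⟩; exact (prodA_le N 2 _ le_rfl a).1⟩
  obtain ⟨A, hA⟩ : ∃ A, Tendsto (fun M => ∏ p ∈ Pr 2 (M + 2), fA N a p) atTop (𝓝 A) :=
    ⟨_, tendsto_atTop_ciInf hAanti hAb⟩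
  -- the part B
  have hBone : ∀ y M : ℕ, 1 ≤ ∏ p ∈ Pr y M, fB N a p := fun y M => by
    calc (1 : ℝ) = ∏ p ∈ Pr y M, (1 : ℝ) := prod_const_one.symm
      _ ≤ _ := prod_le_prod (fun _ _ => zero_le_one) fun p _ => fB_ge N a p
  have hBmono : Monotone fun M => ∏ p ∈ Pr 2 (M + 2), fB N a p := by
    refine monotone_nat_of_le_succ fun M => ?_
    rw [Pr_split (by omega : 2 ≤ M + 2) (by omega : M + 2 ≤ M + 1 + 2)]
    exact le_mul_of_one_le_right (zero_le_one.trans (hBone _ _)) (hBone _ _)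
  have hBtail : ∀ M, ∏ p ∈ Pr z M, fB N a p ≤ 1 + 2 * t := by
    intro M
    refine (prodB_le N z M a).trans ((Real.exp_le_exp.mpr (h M).le).trans (exp_small ht0 ht1))
  have hBb : BddAbove (Set.range fun M => ∏ p ∈ Pr 2 (M + 2), fB N a p) := by
    refine ⟨(∏ p ∈ Pr 2 z, fB N a p) * (1 + 2 * t), ?_⟩
    rintro _ ⟨M, rfl⟩
    show ∏ p ∈ Pr 2 (M + 2), fB N a p ≤ _
    rcases le_total z (M + 2) with h1 | h1
    · rw [Pr_split hz h1]
      exact mul_le_mul_of_nonneg_left (hBtail _) (zero_le_one.trans (hBone _ _))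
    · have e1 := Pr_split (by omega : 2 ≤ M + 2) h1 (fB N a)
      have h2 : ∏ p ∈ Pr 2 (M + 2), fB N a p ≤ ∏ p ∈ Pr 2 z, fB N a p := by
        rw [e1]
        exact le_mul_of_one_le_right (zero_le_one.trans (hBone _ _)) (hBone _ _)
      refine h2.trans (le_mul_of_one_le_right (zero_le_one.trans (hBone _ _)) (by linarith))
  obtain ⟨B, hB⟩ : ∃ B, Tendsto (fun M => ∏ p ∈ Pr 2 (M + 2), fB N a p) atTop (𝓝 B) :=
    ⟨_, tendsto_atTop_ciSup hBmono hBb⟩
  have hS2 : Tendsto (fun M => SN N a (M + 2)) atTop (𝓝 (2 * A * B)) := by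
    have h1 := (tendsto_const_nhds (x := (2 : ℝ))).mul hA |>.mul hB
    refine h1.congr fun M => ?_
    rw [SN_split hN a (by omega)]
  have hS : Tendsto (fun M => SN N a M) atTop (𝓝 (2 * A * B)) := (tendsto_add_atTop_iff_nat 2).mp hS2
  have hSz : 1 ≤ SN N a z := by
    rw [SN_split hN a hz]
    have h1 := prodA_half N a z hz
    have h2 : (1 : ℝ) / 2 ≤ (z : ℝ) / (2 * ((z : ℝ) - 1)) := by
      have hz1 : (2 : ℝ) ≤ z := by exact_mod_cast hz
      rw [div_le_div_iff₀ (by norm_num) (by linarith)]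
      linarith
    have h3 := hBone 2 z
    nlinarith
  refine ⟨2 * A * B, ?_, hS, ?_⟩
  · refine ge_of_tendsto hS2 (Eventually.of_forall fun M => ?_)
    rw [SN_split hN a (by omega)]
    have h1 := prodA_half N a (M + 2) (by omega)
    have h2 : (1 : ℝ) / 2 ≤ ((M + 2 : ℕ) : ℝ) / (2 * (((M + 2 : ℕ) : ℝ) - 1)) := by
      have hz1 : (2 : ℝ) ≤ ((M + 2 : ℕ) : ℝ) := by exact_mod_cast (by omega : 2 ≤ M + 2)
      rw [div_le_div_iff₀ (by norm_num) (by linarith)]
      linarith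
    have h3 := hBone 2 (M + 2)
    nlinarith
  · have hev : ∀ᶠ M : ℕ in atTop, |SN N a z - SN N a M| ≤ SN N a z * (8 / z + 2 * t) := by
      filter_upwards [eventually_ge_atTop z] with M hM
      have e1 : SN N a M = SN N a z * ((∏ p ∈ Pr z M, fA N a p) * ∏ p ∈ Pr z M, fB N a p) := by
        unfold SN
        rw [Pr_split (Nat.zero_le z) hM, ← prod_mul_distrib]
        congr 1
        exact prod_congr rfl fun p _ => FF_gN N a p
      set QA := ∏ p ∈ Pr z M, fA N a p with hQA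
      set QB := ∏ p ∈ Pr z M, fB N a p with hQB
      have a1 := prodA_ge N z M hz a
      obtain ⟨a2, a3⟩ := prodA_le N z M hz a
      have b1 := hBone z M
      have b2 := hBtail M
      have e2 : SN N a z - SN N a M = SN N a z * (1 - QA * QB) := by rw [e1]; ring
      rw [e2, abs_mul, abs_of_nonneg (by linarith)]
      apply mul_le_mul_of_nonneg_left _ (by linarith)
      rw [abs_le]
      have h8 : 0 < 8 / (z : ℝ) := by positivity
      rw [← hQA] at a1 a2 a3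
      rw [← hQB] at b1 b2
      constructor
      · have : QA * QB ≤ 1 * (1 + 2 * t) := mul_le_mul a3 b2 (by linarith) (by norm_num)
        linarith
      · have : QA * 1 ≤ QA * QB := mul_le_mul_of_nonneg_left b1 a2
        linarith
    have h1 : Tendsto (fun M => |SN N a z - SN N a M|) atTop (𝓝 |SN N a z - 2 * A * B|) :=
      (tendsto_const_nhds.sub hS).abs
    exact le_of_tendsto h1 hev

end Pool.Agent.W2helper64.GB
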