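import Pool.Agent.W2helper64.GB.Gen

set_option autoImplicit false
set_option linter.unusedSectionVars false

/-!
The system `n, N - n`.
-/

namespace Pool.Agent.W2helper64.GB

open Finset Filter Topology Polynomial MeasureTheory Pool.Agent.W2helper64.RS Pool.Agent.W2helper64.RK
open Pool.Agent.W2helper64.BH
open Pool.Agent.H373R2.T7 (pz nuB PerB sys_count nuB_le mem_pz)

/-- the system `n, N - n` -/
noncomputable def gN (N : ℕ) : Fin 2 → ℤ[X] := ![X, C (N : ℤ) - X]

theorem gN0 (N : ℕ) (z : ℤ) : (gN N 0).eval z = z := by simp [gN]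

theorem gN1 (N : ℕ) (z : ℤ) : (gN N 1).eval z = N - z := by simp [gN]

theorem gN_neg (N : ℕ) : gN N 1 = -(X - C (N : ℤ)) := by
  show C (N : ℤ) - X = _
  ring

theorem gN_deg (N : ℕ) (i : Fin 2) : (gN N i).natDegree = 1 := by
  fin_cases i
  · show (X : ℤ[X]).natDegree = 1
    exact natDegree_X
  · show (gN N 1).natDegree = 1
    rw [gN_neg, natDegree_neg, natDegree_X_sub_C]

theorem gN_lead (N : ℕ) (i : Fin 2) : (gN N i).leadingCoeff = 1 ∨ (gN N i).leadingCoeff = -1 := by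
  fin_cases i
  · left
    show (X : ℤ[X]).leadingCoeff = 1
    exact leadingCoeff_X
  · right
    show (gN N 1).leadingCoeff = -1
    rw [gN_neg, leadingCoeff_neg, leadingCoeff_X_sub_C]

theorem gN_sum (N : ℕ) : ∑ i, (gN N i).natDegree ≤ 2 := by
  simp only [gN_deg]
  simp

theorem gN_ndvd (N : ℕ) {p : ℕ} (hp : p.Prime) (i : Fin 2) : ¬ (p : ℤ) ∣ (gN N i).leadingCoeff := by
  intro hdvd
  have h1 : (p : ℤ) ∣ 1 := by
    rcases gN_lead N i with h | h
    · rwa [h] at hdvd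
    · rw [h] at hdvd
      exact (dvd_neg.mp hdvd)
  have h2 : p ∣ 1 := by exact_mod_cast h1
  exact hp.one_lt.ne' (Nat.dvd_one.mp h2)

theorem perBG (N : ℕ) (a : (p : Nat.Primes) → ZMod (p : ℕ)) : PerB (Hit (gN N) a) 2 := by
  refine ⟨hit_per _ a, fun p hp => ?_⟩
  exact nu_le (gN N) 2 (fun i => by rw [gN_deg]; norm_num) (gN_sum N) a hp (gN_ndvd N hp)

/-- the count of the first phase -/
theorem count_phaseG (E U : ℕ) : ∀ᶠ x : ℕ in atTop,
    ∀ (M : ℕ) (a : (p : Nat.Primes) → ZMod (p : ℕ)), ∀ y, mz x ≤ y → y ≤ x →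
      |(((@Finset.filter ℕ (fun n => ∀ p ∈ pz (zz E x), ¬ Hit (gN M) a p n) (Classical.decPred _) (Ioc (mz x) y)).card : ℕ) : ℝ) -
        ((y : ℝ) - mz x) * PP (gN M) a (zz E x)| ≤ 2 ^ (U + 1) * (x / Real.log x ^ U) := by
  classical
  obtain ⟨N0, hN0⟩ := sys_count 2 (E + 1) U (by omega)
  filter_upwards [ev_log (2 * N0 + 2 * 2 ^ E + 4), eventually_ge_atTop 4] with x hL hx4 M a y hy1 hy2
  obtain ⟨hm1, hm2, hm3⟩ := mz_facts hx4
  set L : ℝ := Real.log x with hLdef
  have hN0' : (0 : ℝ) ≤ N0 := Nat.cast_nonneg _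
  have h2E : (0 : ℝ) < 2 ^ E := by positivity
  have hL0 : 0 < L := by linarith
  have hL1 : 1 ≤ L := by linarith
  have hz1 : 1 ≤ zz E x := by
    unfold zz
    apply Nat.le_floor
    push_cast
    exact one_le_pow₀ hL1
  have hmain : ∀ N : ℕ, mz x ≤ N → N ≤ x →
      |(((@Finset.filter ℕ (fun n => ∀ p ∈ pz (zz E x), ¬ Hit (gN M) a p n) (Classical.decPred _) (Icc 1 N)).card : ℕ) : ℝ) -
        N * PP (gN M) a (zz E x)| ≤ 2 ^ U * (x / L ^ U) := by
    intro N h1 h2
    have hlN := hm3 N h1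
    have hNpos : (0 : ℝ) < N := by
      have : 0 < N := by unfold mz at h1; omega
      exact_mod_cast this
    have hlN' : Real.log N ≤ N := (Real.log_le_sub_one_of_pos hNpos).trans (by linarith)
    have hN : N0 ≤ N := by
      have : (N0 : ℝ) ≤ N := by linarith
      exact_mod_cast this
    have hlN0 : 0 < Real.log N := by linarith
    have h3 := hN0 N hN (zz E x) hz1 (by
      have e1 : (zz E x : ℝ) ≤ L ^ E := Nat.floor_le (by positivity)
      refine e1.trans ?_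
      calc L ^ E ≤ (2 * Real.log N) ^ E := pow_le_pow_left₀ hL0.le (by linarith) E
        _ = 2 ^ E * Real.log N ^ E := by rw [mul_pow]
        _ ≤ Real.log N * Real.log N ^ E := by
            apply mul_le_mul_of_nonneg_right _ (by positivity)
            linarith
        _ = Real.log N ^ (E + 1) := by ring) (Hit (gN M) a) (perBG M a)
    have h4 : (N : ℝ) / Real.log N ^ U ≤ 2 ^ U * (x / L ^ U) := by
      have e2 : (L / 2) ^ U ≤ Real.log N ^ U := pow_le_pow_left₀ (by positivity) hlN U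
      calc (N : ℝ) / Real.log N ^ U ≤ x / (L / 2) ^ U := by
            apply div_le_div₀ (Nat.cast_nonneg _) (by exact_mod_cast h2) (by positivity) e2
        _ = 2 ^ U * (x / L ^ U) := by rw [div_pow]; field_simp
    unfold PP
    have h5 := h3.trans h4
    obtain ⟨M', hM1, hM2⟩ : ∃ M' : ℕ, M' = (@Finset.filter ℕ (fun n => ∀ p ∈ pz (zz E x), ¬ Hit (gN M) a p n)
        (Classical.decPred _) (Icc 1 N)).card ∧
        |(M' : ℝ) - N * ∏ p ∈ pz (zz E x), (1 - (nuB (Hit (gN M) a) p : ℝ) / p)| ≤ 2 ^ U * (x / L ^ U) := by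
      refine ⟨_, ?_, h5⟩
      congr
    rw [← hM1]
    exact hM2
  have h5 := hmain (mz x) le_rfl hm1
  have h6 := hmain y hy1 hy2
  have hsplit : (((@Finset.filter ℕ (fun n => ∀ p ∈ pz (zz E x), ¬ Hit (gN M) a p n) (Classical.decPred _) (Icc 1 y)).card : ℕ) : ℝ) =
      (((@Finset.filter ℕ (fun n => ∀ p ∈ pz (zz E x), ¬ Hit (gN M) a p n) (Classical.decPred _) (Icc 1 (mz x))).card : ℕ) : ℝ) +
      (((@Finset.filter ℕ (fun n => ∀ p ∈ pz (zz E x), ¬ Hit (gN M) a p n) (Classical.decPred _) (Ioc (mz x) y)).card : ℕ) : ℝ) := by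
    rw [← Nat.cast_add, ← card_union_of_disjoint]
    · congr 2
      ext n
      simp only [Finset.mem_union, mf', mem_Icc, mem_Ioc]
      constructor
      · rintro ⟨h7, h8⟩
        rcases le_or_gt n (mz x) with h9 | h9
        · exact Or.inl ⟨⟨h7.1, h9⟩, h8⟩
        · exact Or.inr ⟨⟨h9, h7.2⟩, h8⟩
      · rintro (⟨h7, h8⟩ | ⟨h7, h8⟩)
        · exact ⟨⟨h7.1, by omega⟩, h8⟩
        · exact ⟨⟨by omega, h7.2⟩, h8⟩
    · rw [Finset.disjoint_left]
      intro n h7 h8
      rw [mf', mem_Icc] at h7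
      rw [mf', mem_Ioc] at h8
      omega
  have h7 : (2 : ℝ) ^ (U + 1) * (x / L ^ U) = 2 ^ U * (x / L ^ U) + 2 ^ U * (x / L ^ U) := by ring
  rw [h7]
  rw [abs_le] at h5 h6 ⊢
  constructor <;> nlinarith

end Pool.Agent.W2helper64.GB
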