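import Pool.Agent.W2helper64.GB.Good

set_option autoImplicit false
set_option linter.unusedSectionVars false

/-!
The singular series of the system `n, N - n`: the factors, the exponential moment of the tail.
-/

namespace Pool.Agent.W2helper64.GB

open Finset Filter Topology Polynomial MeasureTheory Pool.Agent.W2helper64.RS Pool.Agent.W2helper64.RK
open Pool.Agent.W2helper64.BH
open Pool.Agent.H373R2.T7 (pz nuB PerB sys_count nuB_le mem_pz)

theorem mfz {α : Type*} {p : α → Prop} {inst : DecidablePred p} {s : Finset α} {a : α} :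
    a ∈ @Finset.filter α p inst s ↔ a ∈ s ∧ p a := Finset.mem_filter

theorem nuR_gN (N : ℕ) {p : ℕ} (hp : p.Prime) (r : ZMod p) :
    nuR (gN N) p r = if 2 * r = (N : ZMod p) then 1 else 2 := by
  classical
  have : Fact p.Prime := ⟨hp⟩
  have : NeZero p := ⟨hp.ne_zero⟩
  have key : nuR (gN N) p r = ({r, (N : ZMod p) - r} : Finset (ZMod p)).card := by
    unfold nuR
    refine card_bij (fun m _ => ((m : ℕ) : ZMod p)) ?_ ?_ ?_
    · intro m hm
      rw [mf', mem_Im] at hm
      rw [mem_insert, mem_singleton]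
      obtain ⟨-, i, hi⟩ := hm
      fin_cases i
      · left
        have h : (((gN N 0).eval (m : ℤ) : ℤ) : ZMod p) = r := hi
        rw [gN0] at h
        exact_mod_cast h
      · right
        have h : (((gN N 1).eval (m : ℤ) : ℤ) : ZMod p) = r := hi
        rw [gN1] at h
        push_cast at h
        rw [← h]; ring
    · intro m hm l hl hml
      rw [mf', mem_range] at hm hl
      rw [ZMod.natCast_eq_natCast_iff] at hml
      have h3 : m % p = l % p := hml
      rwa [Nat.mod_eq_of_lt hm.1, Nat.mod_eq_of_lt hl.1] at h3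
    · intro x hx
      rw [mem_insert, mem_singleton] at hx
      refine ⟨x.val, ?_, ?_⟩
      · rw [mf', mem_range, mem_Im]
        refine ⟨ZMod.val_lt x, ?_⟩
        rcases hx with rfl | rfl
        · refine ⟨0, ?_⟩
          rw [gN0, Int.cast_natCast, ZMod.natCast_val, ZMod.cast_id', id]
        · refine ⟨1, ?_⟩
          rw [gN1]
          push_cast
          rw [ZMod.natCast_val, ZMod.cast_id', id]
          ring
      · rw [ZMod.natCast_val, ZMod.cast_id', id]
  rw [key]
  by_cases h : 2 * r = (N : ZMod p)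
  · rw [if_pos h]
    have h2 : (N : ZMod p) - r = r := by rw [← h]; ring
    rw [h2, pair_eq_singleton, card_singleton]
  · rw [if_neg h]
    apply card_pair
    intro h2
    apply h
    calc 2 * r = r + r := by ring
      _ = r + ((N : ZMod p) - r) := by rw [← h2]
      _ = N := by ring

open Classical in
/-- the factors of the generic primes -/
noncomputable def fA (N : ℕ) (a : (p : Nat.Primes) → ZMod (p : ℕ)) (p : Nat.Primes) : ℝ :=
  if 2 * a p = (N : ZMod (p : ℕ)) then 1 else (1 - 2 / ((p : ℕ) : ℝ)) / (1 - 1 / ((p : ℕ) : ℝ)) ^ 2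

open Classical in
/-- the factors of the special primes -/
noncomputable def fB (N : ℕ) (a : (p : Nat.Primes) → ZMod (p : ℕ)) (p : Nat.Primes) : ℝ :=
  if 2 * a p = (N : ZMod (p : ℕ)) then 1 / (1 - 1 / ((p : ℕ) : ℝ)) else 1

theorem FF_gN (N : ℕ) (a : (p : Nat.Primes) → ZMod (p : ℕ)) (p : Nat.Primes) :
    FF (gN N) a (p : ℕ) = fA N a p * fB N a p := by
  unfold FF
  rw [nuB_eq, nuR_gN N p.2]
  have hp : (2 : ℝ) ≤ ((p : ℕ) : ℝ) := by exact_mod_cast p.2.two_le
  have h1 : (1 - 1 / ((p : ℕ) : ℝ)) ≠ 0 := by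
    have : 1 / ((p : ℕ) : ℝ) ≤ 1 / 2 := one_div_le_one_div_of_le (by norm_num) hp
    linarith
  unfold fA fB
  by_cases h : 2 * a p = (N : ZMod (p : ℕ))
  · rw [if_pos h, if_pos h, if_pos h, one_mul]
    rw [div_eq_div_iff (by positivity) h1]
    push_cast
    ring
  · rw [if_neg h, if_neg h, if_neg h, mul_one]
    push_cast
    rfl

theorem fA_facts (N : ℕ) (a : (p : Nat.Primes) → ZMod (p : ℕ)) (p : Nat.Primes) (hp : 3 ≤ (p : ℕ)) :
    1 - 1 / (((p : ℕ) : ℝ) - 1) ^ 2 ≤ fA N a p ∧ fA N a p ≤ 1 := by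
  have hp3 : (3 : ℝ) ≤ ((p : ℕ) : ℝ) := by exact_mod_cast hp
  set q : ℝ := ((p : ℕ) : ℝ) with hq
  have h0 : 0 < 1 / (q - 1) ^ 2 := by
    have : 0 < q - 1 := by linarith
    positivity
  have e1 : (1 - 2 / q) / (1 - 1 / q) ^ 2 = 1 - 1 / (q - 1) ^ 2 := by
    have h1 : q ≠ 0 := by linarith
    have h2 : q - 1 ≠ 0 := by linarith
    have h3 : 1 - 1 / q = (q - 1) / q := by field_simp
    rw [h3]
    field_simp
    ring
  unfold fA
  split_ifs
  · exact ⟨by linarith, le_rfl⟩
  · rw [e1]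
    exact ⟨le_rfl, by linarith⟩

theorem fB_ge (N : ℕ) (a : (p : Nat.Primes) → ZMod (p : ℕ)) (p : Nat.Primes) : 1 ≤ fB N a p := by
  have hp : (2 : ℝ) ≤ ((p : ℕ) : ℝ) := by exact_mod_cast p.2.two_le
  have h2 : 1 / ((p : ℕ) : ℝ) ≤ 1 / 2 := one_div_le_one_div_of_le (by norm_num) hp
  have h3 : 0 < 1 / ((p : ℕ) : ℝ) := by positivity
  unfold fB
  split_ifs
  · rw [le_div_iff₀ (by linarith)]
    linarith
  · exact le_rfl

open Classical in
/-- the sum over the special primes in `(z, M]` -/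
noncomputable def Ts (N : ℕ) (z M : ℕ) (a : (p : Nat.Primes) → ZMod (p : ℕ)) : ℝ :=
  ∑ p ∈ Pr z M, if 2 * a p = (N : ZMod (p : ℕ)) then 1 / (((p : ℕ) : ℝ) - 1) else 0

theorem prodB_le (N z M : ℕ) (a : (p : Nat.Primes) → ZMod (p : ℕ)) :
    ∏ p ∈ Pr z M, fB N a p ≤ Real.exp (Ts N z M a) := by
  unfold Ts
  rw [Real.exp_sum]
  refine prod_le_prod (fun p _ => zero_le_one.trans (fB_ge N a p)) fun p _ => ?_
  have hp : (2 : ℝ) ≤ ((p : ℕ) : ℝ) := by exact_mod_cast p.2.two_le
  unfold fB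
  split_ifs
  · have h1 : 1 / (1 - 1 / ((p : ℕ) : ℝ)) = 1 / (((p : ℕ) : ℝ) - 1) + 1 := by
      have h2 : ((p : ℕ) : ℝ) - 1 ≠ 0 := by linarith
      have h3 : 1 - 1 / ((p : ℕ) : ℝ) = (((p : ℕ) : ℝ) - 1) / ((p : ℕ) : ℝ) := by field_simp
      rw [h3]
      field_simp
      ring
    rw [h1]
    exact Real.add_one_le_exp _
  · rw [Real.exp_zero]

/-! ### the exponential moment -/

section
variable {ι : Type} [Fintype ι] [DecidableEq ι] {α : ι → Type} [∀ i, Fintype (α i)] [∀ i, Nonempty (α i)]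
  [∀ i, DecidableEq (α i)]

theorem avg_prod_le (g : (i : ι) → α i → ℝ) (hg : ∀ i r, 0 ≤ g i r) (c : ι → ℝ)
    (hc : ∀ i, (∑ r, g i r) / (Fintype.card (α i) : ℝ) ≤ c i) (K : Finset ι) :
    avg (fun b : (i : ι) → α i => ∏ i ∈ K, g i (b i)) ≤ ∏ i ∈ K, c i := by
  classical
  induction K using Finset.induction_on with
  | empty => simp only [prod_empty]; exact (avg_const (α := α) (1 : ℝ)).le
  | insert i K hi ih =>
    have hind : Indep i (fun b : (i : ι) → α i => ∏ j ∈ K, g j (b j)) := by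
      intro b r
      refine prod_congr rfl fun j hj => ?_
      have : j ≠ i := fun h => hi (h ▸ hj)
      rw [Function.update_of_ne this]
    have h0 : 0 ≤ c i := le_trans (div_nonneg (sum_nonneg fun r _ => hg i r) (Nat.cast_nonneg _)) (hc i)
    have h1 : (fun b : (i : ι) → α i => ∏ j ∈ insert i K, g j (b j)) =
        fun b => g i (b i) * ∏ j ∈ K, g j (b j) := by
      funext b
      rw [prod_insert hi]
    rw [h1, ← avg_mm i, mm_mul_indep (G := fun b => g i (b i)) hind, prod_insert hi]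
    refine le_trans (avg_mono (H := fun b => c i * ∏ j ∈ K, g j (b j)) fun b => ?_) ?_
    · refine mul_le_mul_of_nonneg_right ?_ (prod_nonneg fun j _ => hg j _)
      refine le_trans (le_of_eq ?_) (hc i)
      unfold mm
      congr 1
      refine sum_congr rfl fun r _ => ?_
      show g i (Function.update b i r i) = g i r
      rw [Function.update_self]
    · rw [avg_mul]
      exact mul_le_mul_of_nonneg_left ih h0

end

theorem exp_small {y : ℝ} (h0 : 0 ≤ y) (h1 : y ≤ 1) : Real.exp y ≤ 1 + 2 * y := by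
  have h2 := Real.abs_exp_sub_one_le (x := y) (by rw [abs_of_nonneg h0]; exact h1)
  rw [abs_of_nonneg h0] at h2
  have := (abs_le.mp h2).2
  linarith

theorem law_tail (N z M : ℕ) (hz : 2 ≤ z) (t : ℝ) :
    law {a | t ≤ Ts N z M a} ≤ ENNReal.ofReal (Real.exp (8 - z * t)) := by
  classical
  set F := Pr z M with hF
  have hz0 : (0 : ℝ) < z := by exact_mod_cast (by omega : 0 < z)
  have hFp : ∀ p : {x // x ∈ F}, z < ((p : Nat.Primes) : ℕ) := fun p => (mem_Pr.mp p.2).1
  set P : ((p : {x // x ∈ F}) → ZMod ((p : Nat.Primes) : ℕ)) → Prop := fun b =>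
    t ≤ ∑ p : {x // x ∈ F}, (if 2 * b p = (N : ZMod ((p : Nat.Primes) : ℕ)) then 1 / ((((p : Nat.Primes) : ℕ) : ℝ) - 1) else 0) with hP
  have h1 : {a | t ≤ Ts N z M a} = {a : (p : Nat.Primes) → ZMod (p : ℕ) | P (F.restrict a)} := by
    ext a
    simp only [Set.mem_ofPred_eq, hP]
    unfold Ts
    rw [← hF, ← Finset.sum_coe_sort F (fun p : Nat.Primes =>
      (if 2 * a p = (N : ZMod (p : ℕ)) then 1 / (((p : ℕ) : ℝ) - 1) else 0))]
    rfl
  rw [h1, law_cyl F P (inst := Classical.decPred _)]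
  apply ENNReal.ofReal_le_ofReal
  have h2 := avg_ind_le (α := fun p : {x // x ∈ F} => ZMod ((p : Nat.Primes) : ℕ))
    (G := fun b => Real.exp (z * ∑ p : {x // x ∈ F},
      (if 2 * b p = (N : ZMod ((p : Nat.Primes) : ℕ)) then 1 / ((((p : Nat.Primes) : ℕ) : ℝ) - 1) else 0)))
    (fun b => (Real.exp_pos _).le) (P := P) (c := Real.exp (z * t)) (Real.exp_pos _) (fun b hb =>
      Real.exp_le_exp.mpr (mul_le_mul_of_nonneg_left hb hz0.le))
  refine le_trans (le_of_eq ?_) (h2.trans ?_)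
  · congr
  rw [Real.exp_sub]
  apply div_le_div_of_nonneg_right _ (Real.exp_pos _).le
  -- the exponential moment
  have h3 : (fun b : (p : {x // x ∈ F}) → ZMod ((p : Nat.Primes) : ℕ) => Real.exp (z * ∑ p : {x // x ∈ F},
      (if 2 * b p = (N : ZMod ((p : Nat.Primes) : ℕ)) then 1 / ((((p : Nat.Primes) : ℕ) : ℝ) - 1) else 0))) =
      fun b => ∏ p : {x // x ∈ F}, (fun (p : {x // x ∈ F}) (r : ZMod ((p : Nat.Primes) : ℕ)) =>
        Real.exp (z * (if 2 * r = (N : ZMod ((p : Nat.Primes) : ℕ)) then 1 / ((((p : Nat.Primes) : ℕ) : ℝ) - 1) else 0))) p (b p) := by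
    funext b
    rw [mul_sum, Real.exp_sum]
  rw [h3]
  refine (avg_prod_le (fun (p : {x // x ∈ F}) (r : ZMod ((p : Nat.Primes) : ℕ)) =>
        Real.exp (z * (if 2 * r = (N : ZMod ((p : Nat.Primes) : ℕ)) then 1 / ((((p : Nat.Primes) : ℕ) : ℝ) - 1) else 0)))
    (fun _ _ => (Real.exp_pos _).le) (fun p => Real.exp (4 * z * (1 / (((p : Nat.Primes) : ℕ) : ℝ) ^ 2))) ?_ univ).trans ?_
  · intro p
    have hp := hFp p
    have hpz : (z : ℝ) + 1 ≤ (((p : Nat.Primes) : ℕ) : ℝ) := by exact_mod_cast hp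
    have hp2 : ((p : Nat.Primes) : ℕ) ≠ 2 := by omega
    set q : ℝ := (((p : Nat.Primes) : ℕ) : ℝ) with hq
    have hz2 : (2 : ℝ) ≤ z := by exact_mod_cast hz
    have hq0 : 0 < q := by linarith
    rw [ZMod.card]
    -- at most one solution
    have hone : ((univ : Finset (ZMod ((p : Nat.Primes) : ℕ))).filter (fun r => 2 * r = (N : ZMod ((p : Nat.Primes) : ℕ)))).card ≤ 1 := by
      rw [card_le_one]
      intro r hr s hs
      have hr2 := (mfz.mp hr).2
      have hs2 := (mfz.mp hs).2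
      have : Fact ((p : Nat.Primes) : ℕ).Prime := ⟨(p : Nat.Primes).2⟩
      have h20 : (2 : ZMod ((p : Nat.Primes) : ℕ)) ≠ 0 := by
        intro h0
        have h1 : ((2 : ℕ) : ZMod ((p : Nat.Primes) : ℕ)) = 0 := by exact_mod_cast h0
        rw [ZMod.natCast_eq_zero_iff] at h1
        exact hp2 ((Nat.prime_dvd_prime_iff_eq (p : Nat.Primes).2 Nat.prime_two).mp h1)
      exact mul_left_cancel₀ h20 (hr2.trans hs2.symm)
    have hy0 : 0 ≤ z * (1 / (q - 1)) := by
      have : 0 < q - 1 := by linarith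
      positivity
    have hy1 : z * (1 / (q - 1)) ≤ 1 := by
      rw [mul_one_div, div_le_one (by linarith)]
      linarith
    have hterm : ∀ r : ZMod ((p : Nat.Primes) : ℕ),
        Real.exp (z * (if 2 * r = (N : ZMod ((p : Nat.Primes) : ℕ)) then 1 / (q - 1) else 0)) ≤
          1 + (if 2 * r = (N : ZMod ((p : Nat.Primes) : ℕ)) then 2 * (z * (1 / (q - 1))) else 0) := by
      intro r
      split_ifs
      · exact exp_small hy0 hy1
      · rw [mul_zero, Real.exp_zero, add_zero]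
    have hsum : ∑ r : ZMod ((p : Nat.Primes) : ℕ),
        Real.exp (z * (if 2 * r = (N : ZMod ((p : Nat.Primes) : ℕ)) then 1 / (q - 1) else 0)) ≤
          q + 2 * (z * (1 / (q - 1))) := by
      refine (sum_le_sum fun r _ => hterm r).trans ?_
      rw [sum_add_distrib, sum_const, card_univ, ZMod.card, nsmul_eq_mul, mul_one, ← sum_filter, sum_const, nsmul_eq_mul]
      refine add_le_add le_rfl ?_
      refine mul_le_of_le_one_left (by positivity) ?_
      exact_mod_cast hone
    have h5 : (∑ r : ZMod ((p : Nat.Primes) : ℕ),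
        Real.exp (z * (if 2 * r = (N : ZMod ((p : Nat.Primes) : ℕ)) then 1 / (q - 1) else 0))) / q ≤
          1 + 4 * z * (1 / q ^ 2) := by
      rw [div_le_iff₀ hq0]
      refine hsum.trans ?_
      have h6 : 1 / (q - 1) ≤ 2 / q := by
        rw [div_le_div_iff₀ (by linarith) hq0]
        linarith
      have h7 : z * (1 / (q - 1)) ≤ z * (2 / q) := mul_le_mul_of_nonneg_left h6 hz0.le
      have h8 : (1 + 4 * z * (1 / q ^ 2)) * q = q + 2 * (z * (2 / q)) := by
        field_simp
        ring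
      rw [h8]
      linarith
    refine h5.trans ?_
    have := Real.add_one_le_exp (4 * z * (1 / q ^ 2))
    linarith
  · rw [← Real.exp_sum]
    apply Real.exp_le_exp.mpr
    rw [← mul_sum]
    have h4 := sq_sum_le (F := F) (z := z) (by omega) univ (fun p _ => hFp p)
    have h5 : 4 * (z : ℝ) * ∑ p : {x // x ∈ F}, (1 : ℝ) / (((p : Nat.Primes) : ℕ) : ℝ) ^ 2 ≤ 4 * z * (2 / z) :=
      mul_le_mul_of_nonneg_left h4 (by positivity)
    refine h5.trans (le_of_eq ?_)
    field_simp
    norm_num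

end Pool.Agent.W2helper64.GB
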